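import Mathlib

namespace Pool.Agent.H2.SLP

open Finset

variable {α K : Type*} [DecidableEq α] [Field K]

/-- Up operator on functions on finite sets. -/
def up (a : α → K) (f : Finset α → K) : Finset α → K :=
  fun τ => ∑ v ∈ τ, a v * f (τ.erase v)

/-- Down operator (transpose), relative to a ground set `F`. -/
def down (a : α → K) (F : Finset α) (g : Finset α → K) : Finset α → K :=
  fun σ => ∑ v ∈ F \ σ, a v * g (insert v σ)

theorem up_insert (a : α → K) (f : Finset α → K) {v : α} {σ : Finset α} (hv : v ∉ σ) :
    up a f (insert v σ) = a v * f σ + up a (fun ρ => f (insert v ρ)) σ := by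
  unfold up
  rw [Finset.sum_insert hv, Finset.erase_insert hv]
  congr 1
  refine Finset.sum_congr rfl fun w hw => ?_
  have hne : w ≠ v := fun h => hv (h ▸ hw)
  rw [Finset.erase_insert_of_ne hne.symm]

theorem iter_up_insert (a : α → K) (f : Finset α → K) {v : α} (j : ℕ) :
    ∀ {σ : Finset α}, v ∉ σ →
    ((up a)^[j] f) (insert v σ) =
      ((up a)^[j] (fun ρ => f (insert v ρ))) σ + (j : K) * a v * ((up a)^[j - 1] f) σ := by
  induction j with
  | zero => intro σ _; simp
  | succ j ih =>
    intro σ hv
    rw [Function.iterate_succ_apply', up_insert a _ hv, Function.iterate_succ_apply' (up a) j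
      (fun ρ => f (insert v ρ))]
    have h1 : up a (fun ρ => ((up a)^[j] f) (insert v ρ)) σ =
        up a ((up a)^[j] (fun ρ => f (insert v ρ))) σ + (j : K) * a v * ((up a)^[j] f) σ := by
      have h2 : ∀ w ∈ σ, a w * ((up a)^[j] f) (insert v (σ.erase w)) =
          a w * ((up a)^[j] (fun ρ => f (insert v ρ))) (σ.erase w) +
            (j : K) * a v * (a w * ((up a)^[j - 1] f) (σ.erase w)) := by
        intro w hw
        rw [ih (fun h => hv (Finset.mem_of_mem_erase h))]
        ring
      have h3 : (j : K) * a v * up a ((up a)^[j - 1] f) σ =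
          (j : K) * a v * ((up a)^[j] f) σ := by
        rcases j with _ | k
        · simp
        · rw [Function.iterate_succ_apply' (up a) k f]
          rfl
      rw [← h3]
      change ∑ w ∈ σ, a w * ((up a)^[j] f) (insert v (σ.erase w)) = _
      rw [Finset.sum_congr rfl h2, Finset.sum_add_distrib, ← Finset.mul_sum]
      rfl
    rw [h1]
    have : (j + 1 - 1) = j := by omega
    rw [this]
    push_cast
    ring

theorem iter_up_congr (a : α → K) (j : ℕ) : ∀ {f g : Finset α → K} {τ : Finset α},
    (∀ σ ⊆ τ, f σ = g σ) → ((up a)^[j] f) τ = ((up a)^[j] g) τ := by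
  induction j with
  | zero => intro f g τ h; exact h τ (Finset.Subset.refl τ)
  | succ j ih =>
    intro f g τ h
    rw [Function.iterate_succ_apply, Function.iterate_succ_apply]
    refine ih fun σ hσ => ?_
    unfold up
    refine Finset.sum_congr rfl fun v _ => ?_
    rw [h _ ((Finset.erase_subset _ _).trans hσ)]

theorem iter_up_zero (a : α → K) (j : ℕ) : (up a)^[j] (fun _ => (0 : K)) = fun _ => 0 := by
  induction j with
  | zero => rfl
  | succ j ih =>
    rw [Function.iterate_succ_apply', ih]
    funext τ
    simp [up]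

theorem up_smul (a : α → K) (c : K) (f : Finset α → K) (τ : Finset α) :
    up a (fun ρ => c * f ρ) τ = c * up a f τ := by
  unfold up
  rw [Finset.mul_sum]
  refine Finset.sum_congr rfl fun v _ => ?_
  ring

/-- The Boolean algebra injectivity statement. -/
theorem bool_inj (a : α → K) (F : Finset α) :
    (∀ v ∈ F, a v ≠ 0) → (∀ m : ℕ, 1 ≤ m → m ≤ F.card → (m : K) ≠ 0) →
    ∀ (i j : ℕ) (f : Finset α → K), 2 * i + j ≤ F.card →
      (∀ σ ⊆ F, σ.card ≠ i → f σ = 0) → (∀ τ ⊆ F, ((up a)^[j] f) τ = 0) →
      ∀ σ ⊆ F, f σ = 0 := by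
  induction F using Finset.induction_on with
  | empty =>
    intro _ _ i j f hij _ h σ hσ
    simp at hij
    obtain ⟨rfl, rfl⟩ := hij
    exact h σ hσ
  | insert v F hvF ih =>
    intro ha hK i j f hij hlev h
    have ha' : ∀ w ∈ F, a w ≠ 0 := fun w hw => ha w (Finset.mem_insert_of_mem hw)
    have hcard : (insert v F).card = F.card + 1 := Finset.card_insert_of_notMem hvF
    rw [hcard] at hij hK
    have hK' : ∀ m : ℕ, 1 ≤ m → m ≤ F.card → (m : K) ≠ 0 := fun m h1 h2 => hK m h1 (by omega)
    have ih' := ih ha' hK'
    have hnot : ∀ {σ : Finset α}, σ ⊆ F → v ∉ σ := fun hσ hv => hvF (hσ hv)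
    have hsub : ∀ {σ : Finset α}, σ ⊆ F → σ ⊆ insert v F := fun hσ =>
      hσ.trans (Finset.subset_insert _ _)
    have hsub' : ∀ {σ : Finset α}, σ ⊆ F → insert v σ ⊆ insert v F := fun hσ =>
      Finset.insert_subset_insert _ hσ
    -- conclude from both halves
    suffices hboth : (∀ σ ⊆ F, f σ = 0) ∧ (∀ σ ⊆ F, f (insert v σ) = 0) by
      intro σ hσ
      by_cases hv : v ∈ σ
      · have h1 : σ.erase v ⊆ F := by
          intro w hw
          have := hσ (Finset.mem_of_mem_erase hw)
          rcases Finset.mem_insert.mp this with h | h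
          · exact absurd h (Finset.ne_of_mem_erase hw)
          · exact h
        have := hboth.2 _ h1
        rwa [Finset.insert_erase hv] at this
      · refine hboth.1 σ fun w hw => ?_
        rcases Finset.mem_insert.mp (hσ hw) with h | h
        · exact absurd (h ▸ hw) hv
        · exact h
    rcases Nat.eq_zero_or_pos j with hj | hj
    · subst hj
      exact ⟨fun σ hσ => h σ (hsub hσ), fun σ hσ => h _ (hsub' hσ)⟩
    set Tf : Finset α → K := fun ρ => f (insert v ρ) with hTf
    have hrel : ∀ τ ⊆ F, ((up a)^[j] Tf) τ + (j : K) * a v * ((up a)^[j - 1] f) τ = 0 := by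
      intro τ hτ
      rw [← iter_up_insert a f j (hnot hτ)]
      exact h _ (hsub' hτ)
    have hT0 : ∀ σ ⊆ F, σ.card + 1 ≠ i → Tf σ = 0 := by
      intro σ hσ hc
      refine hlev _ (hsub' hσ) ?_
      rwa [Finset.card_insert_of_notMem (hnot hσ)]
    rcases Nat.lt_or_ge F.card (2 * i + j) with hlt | hge
    · -- the critical case
      have hTf0 : ∀ σ ⊆ F, Tf σ = 0 := by
        rcases Nat.eq_zero_or_pos i with hi | hi
        · intro σ hσ
          exact hT0 σ hσ (by omega)
        · refine ih' (i - 1) (j + 1) Tf (by omega) (fun σ hσ hc => hT0 σ hσ (by omega)) ?_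
          intro τ hτ
          have h1 : ((up a)^[j + 1] Tf) τ = up a (fun ρ => (- ((j : K) * a v)) *
              ((up a)^[j - 1] f) ρ) τ := by
            rw [Function.iterate_succ_apply']
            unfold up
            refine Finset.sum_congr rfl fun w hw => ?_
            have := hrel (τ.erase w) ((Finset.erase_subset _ _).trans hτ)
            change a w * ((up a)^[j] Tf) (τ.erase w) = _
            rw [eq_neg_of_add_eq_zero_left this]
            unfold up
            ring
          rw [h1, up_smul]
          have h2 : up a ((up a)^[j - 1] f) τ = ((up a)^[j] f) τ := by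
            rw [← Function.iterate_succ_apply' (up a) (j - 1) f]
            have hjs : (j - 1).succ = j := by omega
            rw [hjs]
          rw [h2, h τ (hsub hτ), mul_zero]
      refine ⟨?_, hTf0⟩
      refine ih' i (j - 1) f (by omega) (fun σ hσ hc => hlev σ (hsub hσ) hc) ?_
      intro τ hτ
      have h1 := hrel τ hτ
      have h2 : ((up a)^[j] Tf) τ = 0 := by
        rw [iter_up_congr a j (g := fun _ => 0) (fun σ hσ => hTf0 σ (hσ.trans hτ)), iter_up_zero]
      rw [h2, zero_add] at h1
      have h3 : (j : K) * a v ≠ 0 :=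
        mul_ne_zero (hK j hj (by omega)) (ha v (Finset.mem_insert_self _ _))
      exact (mul_eq_zero.mp h1).resolve_left h3
    · have hf0 : ∀ σ ⊆ F, f σ = 0 :=
        ih' i j f hge (fun σ hσ hc => hlev σ (hsub hσ) hc) (fun τ hτ => h τ (hsub hτ))
      refine ⟨hf0, ?_⟩
      rcases Nat.eq_zero_or_pos i with hi | hi
      · intro σ hσ
        exact hT0 σ hσ (by omega)
      · refine ih' (i - 1) j Tf (by omega) (fun σ hσ hc => hT0 σ hσ (by omega)) ?_
        intro τ hτ
        have h1 := hrel τ hτ
        have h2 : ((up a)^[j - 1] f) τ = 0 := by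
          rw [iter_up_congr a (j - 1) (g := fun _ => 0) (fun σ hσ => hf0 σ (hσ.trans hτ)),
            iter_up_zero]
        rwa [h2, mul_zero, add_zero] at h1

theorem down_insert_not (a : α → K) (g : Finset α → K) {v : α} {F σ : Finset α} (hv : v ∉ F)
    (hσ : σ ⊆ F) :
    down a (insert v F) g σ = down a F g σ + a v * g (insert v σ) := by
  unfold down
  have hvs : v ∉ σ := fun h => hv (hσ h)
  rw [Finset.insert_sdiff_of_notMem F hvs, Finset.sum_insert (fun h => hv (Finset.mem_sdiff.mp h).1),
    add_comm]

theorem down_insert_mem (a : α → K) (g : Finset α → K) {v : α} {F σ : Finset α} (hv : v ∉ F) :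
    down a (insert v F) g (insert v σ) = down a F (fun ρ => g (insert v ρ)) σ := by
  unfold down
  have h1 : insert v F \ insert v σ = F \ σ := by
    ext w
    simp only [Finset.mem_sdiff, Finset.mem_insert, not_or]
    constructor
    · rintro ⟨h1 | h1, h2, h3⟩
      · exact absurd h1 h2
      · exact ⟨h1, h3⟩
    · rintro ⟨h1, h2⟩
      exact ⟨Or.inr h1, fun h => hv (h ▸ h1), h2⟩
  rw [h1]
  refine Finset.sum_congr rfl fun w _ => ?_
  rw [Finset.insert_comm]

theorem iter_down_insert_mem (a : α → K) (g : Finset α → K) {v : α} {F : Finset α} (hv : v ∉ F)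
    (j : ℕ) : ∀ {σ : Finset α}, σ ⊆ F →
    ((down a (insert v F))^[j] g) (insert v σ) =
      ((down a F)^[j] (fun ρ => g (insert v ρ))) σ := by
  induction j with
  | zero => intro σ _; rfl
  | succ j ih =>
    intro σ hσ
    rw [Function.iterate_succ_apply', Function.iterate_succ_apply', down_insert_mem a _ hv]
    unfold down
    refine Finset.sum_congr rfl fun w hw => ?_
    have := ih (σ := insert w σ) (Finset.insert_subset (Finset.mem_sdiff.mp hw).1 hσ)
    change a w * ((down a (insert v F))^[j] g) (insert v (insert w σ)) = _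
    rw [this]
    rfl

theorem iter_down_insert_not (a : α → K) (g : Finset α → K) {v : α} {F : Finset α} (hv : v ∉ F)
    (j : ℕ) : ∀ {σ : Finset α}, σ ⊆ F →
    ((down a (insert v F))^[j] g) σ = ((down a F)^[j] g) σ +
      (j : K) * a v * ((down a F)^[j - 1] (fun ρ => g (insert v ρ))) σ := by
  induction j with
  | zero => intro σ _; simp
  | succ j ih =>
    intro σ hσ
    rw [Function.iterate_succ_apply', Function.iterate_succ_apply' (down a F) j g,
      down_insert_not a _ hv hσ, iter_down_insert_mem a g hv j hσ]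
    have h3 : (j : K) * a v * down a F ((down a F)^[j - 1] (fun ρ => g (insert v ρ))) σ =
        (j : K) * a v * ((down a F)^[j] (fun ρ => g (insert v ρ))) σ := by
      rcases j with _ | k
      · simp
      · rw [Function.iterate_succ_apply' (down a F) k]
        rfl
    have h1 : down a F ((down a (insert v F))^[j] g) σ = down a F ((down a F)^[j] g) σ +
        (j : K) * a v * ((down a F)^[j] (fun ρ => g (insert v ρ))) σ := by
      rw [← h3]
      have h2 : ∀ w ∈ F \ σ, a w * ((down a (insert v F))^[j] g) (insert w σ) =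
          a w * ((down a F)^[j] g) (insert w σ) +
            (j : K) * a v * (a w * ((down a F)^[j - 1] (fun ρ => g (insert v ρ))) (insert w σ)) := by
        intro w hw
        rw [ih (Finset.insert_subset (Finset.mem_sdiff.mp hw).1 hσ)]
        ring
      change ∑ w ∈ F \ σ, a w * ((down a (insert v F))^[j] g) (insert w σ) = _
      rw [Finset.sum_congr rfl h2, Finset.sum_add_distrib, ← Finset.mul_sum]
      rfl
    rw [h1]
    have : (j + 1 - 1) = j := by omega
    rw [this]
    push_cast
    ring

theorem iter_down_eq_zero (a : α → K) (F : Finset α) (k : ℕ) : ∀ {g : Finset α → K}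
    {σ : Finset α}, (∀ τ, σ ⊆ τ → τ ⊆ σ ∪ F → τ.card = σ.card + k → g τ = 0) →
    ((down a F)^[k] g) σ = 0 := by
  induction k with
  | zero => intro g σ h; exact h σ (Finset.Subset.refl _) Finset.subset_union_left (by simp)
  | succ k ih =>
    intro g σ h
    rw [Function.iterate_succ_apply']
    unfold down
    refine Finset.sum_eq_zero fun v hv => ?_
    have hv' := Finset.mem_sdiff.mp hv
    have : ((down a F)^[k] g) (insert v σ) = 0 := by
      refine ih fun τ h1 h2 h3 => ?_
      refine h τ ((Finset.subset_insert _ _).trans h1) (h2.trans ?_) ?_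
      · intro w hw
        simp only [Finset.mem_union, Finset.mem_insert] at hw ⊢
        rcases hw with (hw | hw) | hw
        · exact Or.inr (hw ▸ hv'.1)
        · exact Or.inl hw
        · exact Or.inr hw
      · rw [h3, Finset.card_insert_of_notMem hv'.2]
        omega
    change a v * ((down a F)^[k] g) (insert v σ) = 0
    rw [this, mul_zero]

/-- The Boolean algebra surjectivity statement, in dual form. -/
theorem bool_dual (a : α → K) (F : Finset α) :
    (∀ v ∈ F, a v ≠ 0) → (∀ m : ℕ, 1 ≤ m → m ≤ F.card → (m : K) ≠ 0) →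
    ∀ (i j : ℕ) (g : Finset α → K), F.card ≤ 2 * i + j →
      (∀ σ ⊆ F, σ.card = i → ((down a F)^[j] g) σ = 0) →
      ∀ τ ⊆ F, τ.card = i + j → g τ = 0 := by
  induction F using Finset.induction_on with
  | empty =>
    intro _ _ i j g _ h τ hτ hc
    have : τ = ∅ := Finset.subset_empty.mp hτ
    subst this
    rw [Finset.card_empty] at hc
    have hi : i = 0 := by omega
    have hj : j = 0 := by omega
    subst hi hj
    exact h ∅ (Finset.Subset.refl _) rfl
  | insert v F hvF ih =>
    intro ha hK i j g hij h
    have ha' : ∀ w ∈ F, a w ≠ 0 := fun w hw => ha w (Finset.mem_insert_of_mem hw)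
    have hcard : (insert v F).card = F.card + 1 := Finset.card_insert_of_notMem hvF
    rw [hcard] at hij hK
    have hK' : ∀ m : ℕ, 1 ≤ m → m ≤ F.card → (m : K) ≠ 0 := fun m h1 h2 => hK m h1 (by omega)
    have ih' := ih ha' hK'
    have hnot : ∀ {σ : Finset α}, σ ⊆ F → v ∉ σ := fun hσ hv => hvF (hσ hv)
    have hsub : ∀ {σ : Finset α}, σ ⊆ F → σ ⊆ insert v F := fun hσ =>
      hσ.trans (Finset.subset_insert _ _)
    have hsub' : ∀ {σ : Finset α}, σ ⊆ F → insert v σ ⊆ insert v F := fun hσ =>
      Finset.insert_subset_insert _ hσ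
    suffices hboth : (∀ σ ⊆ F, σ.card = i + j → g σ = 0) ∧
        (∀ σ ⊆ F, σ.card + 1 = i + j → g (insert v σ) = 0) by
      intro σ hσ hc
      by_cases hv : v ∈ σ
      · have h1 : σ.erase v ⊆ F := by
          intro w hw
          have := hσ (Finset.mem_of_mem_erase hw)
          rcases Finset.mem_insert.mp this with h | h
          · exact absurd h (Finset.ne_of_mem_erase hw)
          · exact h
        have := hboth.2 _ h1 (by rw [Finset.card_erase_add_one hv, hc])
        rwa [Finset.insert_erase hv] at this
      · refine hboth.1 σ (fun w hw => ?_) hc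
        rcases Finset.mem_insert.mp (hσ hw) with h | h
        · exact absurd (h ▸ hw) hv
        · exact h
    rcases Nat.eq_zero_or_pos j with hj | hj
    · subst hj
      refine ⟨fun σ hσ hc => h σ (hsub hσ) (by omega), fun σ hσ hc => h _ (hsub' hσ) ?_⟩
      rw [Finset.card_insert_of_notMem (hnot hσ)]
      omega
    set Tg : Finset α → K := fun ρ => g (insert v ρ) with hTg
    have hA : ∀ σ ⊆ F, σ.card + 1 = i → ((down a F)^[j] Tg) σ = 0 := by
      intro σ hσ hc
      rw [← iter_down_insert_mem a g hvF j hσ]
      refine h _ (hsub' hσ) ?_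
      rw [Finset.card_insert_of_notMem (hnot hσ), hc]
    have hB : ∀ σ ⊆ F, σ.card = i → ((down a F)^[j] g) σ +
        (j : K) * a v * ((down a F)^[j - 1] Tg) σ = 0 := by
      intro σ hσ hc
      rw [← iter_down_insert_not a g hvF j hσ]
      exact h _ (hsub hσ) hc
    have hja : (j : K) * a v ≠ 0 ∨ F.card + 1 < j := by
      by_cases hj2 : j ≤ F.card + 1
      · exact Or.inl (mul_ne_zero (hK j hj hj2) (ha v (Finset.mem_insert_self _ _)))
      · exact Or.inr (by omega)
    rcases Nat.lt_or_ge (F.card + 1) (2 * i + j) with hlt | hge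
    · have hTg0 : ∀ σ ⊆ F, σ.card + 1 = i + j → Tg σ = 0 := by
        intro σ hσ hc
        have hle := Finset.card_le_card hσ
        rcases Nat.eq_zero_or_pos i with hi | hi
        · omega
        · exact ih' (i - 1) j Tg (by omega) (fun ρ hρ hc => hA ρ hρ (by omega)) σ hσ (by omega)
      refine ⟨?_, hTg0⟩
      refine ih' i j g (by omega) fun σ hσ hc => ?_
      have h1 := hB σ hσ hc
      have h2 : ((down a F)^[j - 1] Tg) σ = 0 := by
        refine iter_down_eq_zero a F (j - 1) fun τ h1 h2 h3 => ?_
        refine hTg0 τ (h2.trans ?_) (by omega)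
        exact Finset.union_subset hσ (Finset.Subset.refl _)
      rwa [h2, mul_zero, add_zero] at h1
    · have hg0 : ∀ σ ⊆ F, σ.card = i + j → g σ = 0 := by
        rcases Nat.eq_zero_or_pos i with hi | hi
        · intro σ hσ hc
          have hle := Finset.card_le_card hσ
          omega
        · intro σ hσ hc
          refine ih' (i - 1) (j + 1) g (by omega) (fun ρ hρ hc => ?_) σ hσ (by omega)
          have h1 : ((down a F)^[j + 1] g) ρ = - ((j : K) * a v) * ((down a F)^[j] Tg) ρ := by
            rw [Function.iterate_succ_apply']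
            have h5 : ((down a F)^[j] Tg) ρ = down a F ((down a F)^[j - 1] Tg) ρ := by
              rw [← Function.iterate_succ_apply' (down a F) (j - 1) Tg]
              have hjs : (j - 1).succ = j := by omega
              rw [hjs]
            rw [h5]
            unfold down
            rw [Finset.mul_sum]
            refine Finset.sum_congr rfl fun w hw => ?_
            have hw' := Finset.mem_sdiff.mp hw
            have := hB (insert w ρ) (Finset.insert_subset hw'.1 hρ)
              (by rw [Finset.card_insert_of_notMem hw'.2]; omega)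
            change a w * ((down a F)^[j] g) (insert w ρ) =
              -((j : K) * a v) * (a w * ((down a F)^[j - 1] Tg) (insert w ρ))
            rw [eq_neg_of_add_eq_zero_left this]
            ring
          rw [h1, hA ρ hρ (by omega), mul_zero]
      refine ⟨hg0, ?_⟩
      intro σ hσ hc
      refine ih' i (j - 1) Tg (by omega) (fun ρ hρ hc => ?_) σ hσ (by omega)
      have h1 := hB ρ hρ hc
      have h2 : ((down a F)^[j] g) ρ = 0 := by
        refine iter_down_eq_zero a F j fun τ h1 h2 h3 => ?_
        refine hg0 τ (h2.trans ?_) (by omega)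
        exact Finset.union_subset hρ (Finset.Subset.refl _)
      rw [h2, zero_add] at h1
      refine (mul_eq_zero.mp h1).resolve_left ?_
      rcases hja with h3 | h3
      · exact h3
      · omega

/-- Forest lemma (dual form): a function on the faces of a complex, all of whose facets have
the same size `D`, which is killed by the iterated down operator vanishes; here `S` runs
over a finite set of facets for which every nonempty subset has a leaf. -/
theorem forest_dual [Fintype α] (a : α → K) (D : ℕ) (ha : ∀ v, a v ≠ 0)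
    (hK : ∀ m : ℕ, 1 ≤ m → m ≤ D → (m : K) ≠ 0) (i j : ℕ) (g : Finset α → K)
    (hij : D + 1 ≤ 2 * i + j)
    (hg : ∀ σ, σ.card = i → ((down a Finset.univ)^[j] g) σ = 0) :
    ∀ (S : Finset (Finset α)), (∀ F ∈ S, F.card = D) →
      (∀ T ⊆ S, T.Nonempty → ∃ F ∈ T, (∀ F' ∈ T, F' = F) ∨
        ∃ G ∈ T, G ≠ F ∧ ∀ F' ∈ T, F' ≠ F → F ∩ F' ⊆ F ∩ G) →
      (∀ F ∈ S, ∀ F' ∈ S, F ⊆ F' → F = F') →
      (∀ τ, τ.card = i + j → (∀ F ∈ S, ¬ τ ⊆ F) → g τ = 0) →
      ∀ τ, τ.card = i + j → g τ = 0 := by
  intro S
  induction S using Finset.strongInduction with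
  | H S ih =>
  intro hD hleaf hanti hS
  rcases S.eq_empty_or_nonempty with rfl | hne
  · intro τ hτ
    exact hS τ hτ (fun F hF => absurd hF (Finset.notMem_empty F))
  obtain ⟨F, hFS, hF⟩ := hleaf S (Finset.Subset.refl _) hne
  refine ih (S.erase F) (Finset.erase_ssubset hFS) (fun F' hF' => hD F' (Finset.mem_of_mem_erase hF'))
    (fun T hT => hleaf T (hT.trans (Finset.erase_subset _ _)))
    (fun F₁ h₁ F₂ h₂ => hanti F₁ (Finset.mem_of_mem_erase h₁) F₂ (Finset.mem_of_mem_erase h₂)) ?_
  intro τ hτ hτS
  by_cases hτF : τ ⊆ F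
  swap
  · refine hS τ hτ fun F' hF' hsub => ?_
    by_cases hFF : F' = F
    · exact hτF (hFF ▸ hsub)
    · exact hτS F' (Finset.mem_erase.mpr ⟨hFF, hF'⟩) hsub
  -- find a free vertex
  have hFD : F.card = D := hD F hFS
  have hle := Finset.card_le_card hτF
  have hi : 0 < i := by omega
  obtain ⟨v, hvτ, hvfree⟩ : ∃ v ∈ τ, ∀ F' ∈ S, F' ≠ F → v ∉ F' := by
    rcases hF with hF | ⟨G, hGS, hGF, hG⟩
    · have : τ.Nonempty := Finset.card_pos.mp (by omega)
      obtain ⟨v, hv⟩ := this
      exact ⟨v, hv, fun F' hF' hne' => absurd (hF F' hF') hne'⟩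
    · have : ¬ τ ⊆ G := hτS G (Finset.mem_erase.mpr ⟨hGF, hGS⟩)
      obtain ⟨v, hv, hvG⟩ := Finset.not_subset.mp this
      refine ⟨v, hv, fun F' hF' hne' hvF' => hvG ?_⟩
      have := hG F' hF' hne' (Finset.mem_inter.mpr ⟨hτF hv, hvF'⟩)
      exact (Finset.mem_inter.mp this).2
  have hvF : v ∈ F := hτF hvτ
  set F₀ := F.erase v with hF₀
  have hF₀c : F₀.card + 1 = D := by rw [hF₀, Finset.card_erase_add_one hvF, hFD]
  -- faces of size i+j containing v and not inside F vanish
  have hvan : ∀ ρ : Finset α, ρ.card = i + j → v ∈ ρ → ¬ ρ ⊆ F → g ρ = 0 := by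
    intro ρ hρ hvρ hρF
    refine hS ρ hρ fun F' hF' hsub => ?_
    by_cases hFF : F' = F
    · exact hρF (hFF ▸ hsub)
    · exact hvfree F' hF' hFF (hsub hvρ)
  have hkey : ∀ (k : ℕ) (σ : Finset α), σ ⊆ F₀ → σ.card + 1 + k = i + j →
      ((down a Finset.univ)^[k] g) (insert v σ) =
        ((down a F₀)^[k] (fun ρ => g (insert v ρ))) σ := by
    intro k
    induction k with
    | zero => intro σ _ _; rfl
    | succ k ihk =>
      intro σ hσ hc
      have hvσ : v ∉ σ := fun h => (Finset.mem_erase.mp (hσ h)).1 rfl
      rw [Function.iterate_succ_apply', Function.iterate_succ_apply']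
      unfold down
      have hsubset : F₀ \ σ ⊆ Finset.univ \ insert v σ := by
        intro w hw
        have hw' := Finset.mem_sdiff.mp hw
        simp only [Finset.mem_sdiff, Finset.mem_univ, true_and, Finset.mem_insert, not_or]
        exact ⟨(Finset.mem_erase.mp hw'.1).1, hw'.2⟩
      rw [← Finset.sum_subset hsubset]
      · refine Finset.sum_congr rfl fun w hw => ?_
        have hw' := Finset.mem_sdiff.mp hw
        have := ihk (insert w σ) (Finset.insert_subset hw'.1 hσ)
          (by rw [Finset.card_insert_of_notMem hw'.2]; omega)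
        rw [Finset.insert_comm]
        change a w * ((down a Finset.univ)^[k] g) (insert v (insert w σ)) = _
        rw [this]
        rfl
      · intro w hw hw2
        simp only [Finset.mem_sdiff, Finset.mem_univ, true_and, Finset.mem_insert, not_or] at hw
        have hwF : w ∉ F := by
          intro h
          exact hw2 (Finset.mem_sdiff.mpr ⟨Finset.mem_erase.mpr ⟨hw.1, h⟩, hw.2⟩)
        have : ((down a Finset.univ)^[k] g) (insert w (insert v σ)) = 0 := by
          refine iter_down_eq_zero a _ k fun ρ h1 _ h3 => ?_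
          refine hvan ρ ?_ ?_ ?_
          · rw [h3, Finset.card_insert_of_notMem (by simp [hw.1, hw.2]),
              Finset.card_insert_of_notMem hvσ]
            omega
          · exact h1 (Finset.mem_insert_of_mem (Finset.mem_insert_self _ _))
          · exact fun h => hwF (h (h1 (Finset.mem_insert_self _ _)))
        change a w * ((down a Finset.univ)^[k] g) (insert w (insert v σ)) = 0
        rw [this, mul_zero]
  have hbool := bool_dual a F₀ (fun w _ => ha w) (fun m h1 h2 => hK m h1 (by omega)) (i - 1) j
    (fun ρ => g (insert v ρ)) (by omega) (by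
      intro σ hσ hc
      have hvσ : v ∉ σ := fun h => (Finset.mem_erase.mp (hσ h)).1 rfl
      rw [← hkey j σ hσ (by omega)]
      exact hg _ (by rw [Finset.card_insert_of_notMem hvσ]; omega))
    (τ.erase v) (Finset.erase_subset_erase v hτF) (by
      have := Finset.card_erase_add_one hvτ
      omega)
  rwa [Finset.insert_erase hvτ] at hbool

end Pool.Agent.H2.SLP
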