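import Mathlib

namespace Pool.Agent.H2.Canon

universe u
open CategoryTheory Abelian IsLocalRing

variable {R : Type u} [CommRing R]

/-- `Ext^i(M, W) = 0`. -/
def ExtVan (R : Type u) [CommRing R] (M : Type u) [AddCommGroup M] [Module R M]
    (W : Type u) [AddCommGroup W] [Module R W] (i : ℕ) : Prop :=
  ∀ x : Ext (ModuleCat.of R M) (ModuleCat.of R W) i, x = 0

section
variable {M M' M'' : Type u} [AddCommGroup M] [Module R M] [AddCommGroup M'] [Module R M']
  [AddCommGroup M''] [Module R M'']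
variable (W : Type u) [AddCommGroup W] [Module R W]

theorem ExtVan.of_equiv (e : M ≃ₗ[R] M') {i : ℕ} (h : ExtVan R M W i) : ExtVan R M' W i := by
  intro x
  have h1 := h ((Ext.mk₀ (ModuleCat.ofHom e.toLinearMap)).comp x (zero_add i))
  have h2 : (Ext.mk₀ (ModuleCat.ofHom e.symm.toLinearMap)).comp
      ((Ext.mk₀ (ModuleCat.ofHom e.toLinearMap)).comp x (zero_add i)) (zero_add i) = x := by
    rw [Ext.mk₀_comp_mk₀_assoc]
    have : ModuleCat.ofHom e.symm.toLinearMap ≫ ModuleCat.ofHom e.toLinearMap =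
        𝟙 (ModuleCat.of R M') := by
      ext y
      simp
    rw [this, Ext.mk₀_id_comp]
  rw [← h2, h1, Ext.comp_zero]

/-- The short complex of an exact pair. -/
noncomputable abbrev sc (f : M →ₗ[R] M') (g : M' →ₗ[R] M'') (h : Function.Exact f g) :
    ShortComplex (ModuleCat.{u} R) :=
  ModuleCat.shortComplexOfCompEqZero f g h.linearMap_comp_eq_zero

theorem sc_exact (f : M →ₗ[R] M') (g : M' →ₗ[R] M'') (h : Function.Exact f g)
    (hf : Function.Injective f) (hg : Function.Surjective g) : (sc f g h).ShortExact :=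
  ModuleCat.shortComplex_shortExact _ h hf hg

theorem ExtVan.mid (f : M →ₗ[R] M') (g : M' →ₗ[R] M'') (h : Function.Exact f g)
    (hf : Function.Injective f) (hg : Function.Surjective g) {i : ℕ}
    (h1 : ExtVan R M W i) (h3 : ExtVan R M'' W i) : ExtVan R M' W i := by
  intro x
  obtain ⟨y, hy⟩ := Ext.contravariant_sequence_exact₂ (sc_exact f g h hf hg) (ModuleCat.of R W) x
    (h1 _)
  have hy0 : y = 0 := h3 y
  subst hy0
  rw [← hy]
  exact Ext.comp_zero ..

theorem ExtVan.left (f : M →ₗ[R] M') (g : M' →ₗ[R] M'') (h : Function.Exact f g)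
    (hf : Function.Injective f) (hg : Function.Surjective g) {i : ℕ}
    (h2 : ExtVan R M' W i) (h3 : ExtVan R M'' W (i + 1)) : ExtVan R M W i := by
  intro x
  obtain ⟨y, hy⟩ := Ext.contravariant_sequence_exact₁ (sc_exact f g h hf hg) (ModuleCat.of R W) x
    (add_comm 1 i) (h3 _)
  have hy0 : y = 0 := h2 y
  subst hy0
  rw [← hy]
  exact Ext.comp_zero ..

theorem ExtVan.right (f : M →ₗ[R] M') (g : M' →ₗ[R] M'') (h : Function.Exact f g)
    (hf : Function.Injective f) (hg : Function.Surjective g) {i : ℕ}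
    (h1 : ExtVan R M W i) (h2 : ExtVan R M' W (i + 1)) : ExtVan R M'' W (i + 1) := by
  intro x
  obtain ⟨y, hy⟩ := Ext.contravariant_sequence_exact₃ (sc_exact f g h hf hg) (ModuleCat.of R W) x
    (h2 _) (add_comm 1 i)
  have hy0 : y = 0 := h1 y
  subst hy0
  rw [← hy]
  exact Ext.comp_zero ..

theorem ExtVan.free (i : ℕ) : ExtVan R R W (i + 1) := by
  intro x
  have : Projective (ModuleCat.of R R) := inferInstance
  exact Ext.eq_zero_of_projective x

theorem ExtVan.subsingleton [Subsingleton M] (i : ℕ) : ExtVan R M W i := by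
  intro x
  have h : 𝟙 (ModuleCat.of R M) = 0 := by
    ext y
    exact Subsingleton.elim _ _
  rw [← Ext.mk₀_id_comp x, h, Ext.mk₀_zero, Ext.zero_comp]

end

section canonical

variable [IsDomain R] [IsLocalRing R] [IsNoetherianRing R] [Ring.KrullDimLE 1 R]
variable (W : Type u) [AddCommGroup W] [Module R W]

omit [IsLocalRing R] in
theorem isFiniteLength_quot {z : R} (hz : z ≠ 0) : IsFiniteLength R (R ⧸ Ideal.span {z}) :=
  isFiniteLength_quotient_span_singleton R (mem_nonZeroDivisors_of_ne_zero hz)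

/-- The residue field embeds in every nonzero torsion module; here in `R/(z)` and, more
generally, in a module with a nonzero torsion element. -/
theorem exists_residue_embedding {M : Type u} [AddCommGroup M] [Module R M] {w : M} (hw : w ≠ 0)
    {z : R} (hz : z ≠ 0) (hzw : z • w = 0) :
    ∃ f : ResidueField R →ₗ[R] M, Function.Injective f := by
  obtain ⟨P, hP, -⟩ := exists_le_isAssociatedPrime_of_isNoetherianRing (R := R)
    (M := Submodule.span R {w}) ⟨w, Submodule.mem_span_singleton_self w⟩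
    (by simpa [Subtype.ext_iff] using hw)
  rw [isAssociatedPrime_iff] at hP
  obtain ⟨hPp, ⟨y, hy⟩, hPy⟩ := hP
  have hmem : ∀ r : R, r ∈ P ↔ r • y = 0 := by
    intro r
    rw [hPy, Submodule.mem_colon_singleton, Submodule.mem_bot, Subtype.ext_iff]
    rfl
  have hzy : z ∈ P := by
    rw [hmem]
    obtain ⟨c, rfl⟩ := Submodule.mem_span_singleton.mp hy
    rw [smul_comm, hzw, smul_zero]
  have hPbot : P ≠ ⊥ := by
    intro h
    rw [h] at hzy
    exact hz hzy
  have hPmax : P = maximalIdeal R := eq_maximalIdeal (hPp.isMaximal_of_ne_bot hPbot)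
  have hker : LinearMap.ker (LinearMap.toSpanSingleton R M y) = maximalIdeal R := by
    ext r
    rw [LinearMap.mem_ker, LinearMap.toSpanSingleton_apply, ← hmem, hPmax]
  have hinj : Function.Injective
      ((maximalIdeal R).liftQ (LinearMap.toSpanSingleton R M y) hker.ge) := by
    rw [← LinearMap.ker_eq_bot, Submodule.ker_liftQ, hker]
    exact Submodule.mkQ_map_self _
  exact ⟨(maximalIdeal R).liftQ (LinearMap.toSpanSingleton R M y) hker.ge, hinj⟩

theorem torsionFree_of_hom_eq_zero (h0 : ∀ f : ResidueField R →ₗ[R] W, f = 0)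
    {z : R} (hz : z ≠ 0) {w : W} (hzw : z • w = 0) : w = 0 := by
  by_contra hw
  obtain ⟨f, hf⟩ := exists_residue_embedding hw hz hzw
  have := h0 f
  subst this
  have : (1 : ResidueField R) = 0 := hf (by simp)
  exact one_ne_zero this

omit [IsLocalRing R] [IsNoetherianRing R] [Ring.KrullDimLE 1 R] in
theorem ExtVan.quot (z : R) (hz : z ≠ 0) (i : ℕ) :
    ExtVan R (R ⧸ Ideal.span {z}) W (i + 2) := by
  refine ExtVan.right W (LinearMap.lsmul R R z) (Ideal.span {z}).mkQ ?_ ?_ ?_
    (ExtVan.free W i) (ExtVan.free W (i + 1))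
  · rw [LinearMap.exact_iff, Submodule.ker_mkQ]
    ext r
    rw [Ideal.mem_span_singleton', LinearMap.mem_range]
    simp [mul_comm]
  · intro a b hab
    simpa [hz] using hab
  · exact Submodule.mkQ_surjective _

/-- Vanishing of `Ext^i(M, W)`, `i ≥ 2`, for `M` of finite length, when `W` has finite
injective dimension. -/
theorem ExtVan.of_isFiniteLength {n : ℕ} (hn : HasInjectiveDimensionLT (ModuleCat.of R W) n)
    (hm : maximalIdeal R ≠ ⊥) :
    ∀ (i : ℕ) (M : Type u) [AddCommGroup M] [Module R M], IsFiniteLength R M →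
      ExtVan R M W (i + 2) := by
  -- descending induction
  suffices h : ∀ (d i : ℕ), n ≤ i + d → ∀ (M : Type u) [AddCommGroup M] [Module R M],
      IsFiniteLength R M → ExtVan R M W (i + 2) by
    intro i M _ _ hM
    exact h n i (by omega) M hM
  intro d
  induction d with
  | zero =>
    intro i hi M _ _ _ x
    exact x.eq_zero_of_hasInjectiveDimensionLT n (by omega)
  | succ d ih =>
    intro i hi
    have hnext := ih (i + 1) (by omega)
    obtain ⟨z, hzm, hz⟩ := Submodule.exists_mem_ne_zero_of_ne_bot hm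
    have hk : ExtVan R (ResidueField R) W (i + 2) := by
      have h1 : (Ideal.Quotient.mk (Ideal.span {z}) 1 : R ⧸ Ideal.span {z}) ≠ 0 := by
        rw [Ne, Ideal.Quotient.eq_zero_iff_mem, Ideal.mem_span_singleton]
        intro hdvd
        have hu : IsUnit z := isUnit_of_dvd_one hdvd
        exact (IsLocalRing.mem_maximalIdeal z).mp hzm hu
      obtain ⟨f, hf⟩ := exists_residue_embedding (R := R) h1 hz (by
        rw [← Ideal.Quotient.mk_eq_mk, ← Submodule.Quotient.mk_smul, Submodule.Quotient.mk_eq_zero]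
        simp)
      refine ExtVan.left W f (LinearMap.range f).mkQ (LinearMap.exact_map_mkQ_range f) hf
        (Submodule.mkQ_surjective _) (ExtVan.quot W z hz i) ?_
      exact hnext _ ((isFiniteLength_quot hz).of_surjective (Submodule.mkQ_surjective _))
    intro M _ _ hM
    induction hM with
    | of_subsingleton => exact ExtVan.subsingleton W _
    | of_simple_quotient hN ihN =>
      rename_i M' _ _ N hsimple
      refine ExtVan.mid W N.subtype N.mkQ (LinearMap.exact_subtype_mkQ N) N.injective_subtype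
        N.mkQ_surjective ihN ?_
      obtain ⟨J, hJ, ⟨e⟩⟩ := isSimpleModule_iff_quot_maximal.mp hsimple
      obtain rfl := eq_maximalIdeal hJ
      exact ExtVan.of_equiv W e.symm hk

theorem delta_abs (S : ShortComplex (ModuleCat.{u} R)) (hS : S.ShortExact) (Y : ModuleCat.{u} R)
    (h : ∀ x : Ext S.X₂ Y 1, x = 0) {K : Type u} [AddCommGroup K] [Module R K] [Nontrivial K]
    (θ : Ext S.X₃ Y 1 ≃ₗ[R] K) :
    ∃ δ : (S.X₁ ⟶ Y) →ₗ[R] K, (∃ φ, δ φ ≠ 0) ∧
      ∀ φ, δ φ = 0 ↔ ∃ ψ : S.X₂ ⟶ Y, S.f ≫ ψ = φ := by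
  let L : (S.X₁ ⟶ Y) →ₗ[R] Ext S.X₃ Y 1 :=
    (Ext.precompOfLinear hS.extClass R Y (add_comm 1 0)) ∘ₗ
      (Ext.linearEquiv₀ (R := R) (X := S.X₁) (Y := Y)).symm.toLinearMap
  have hL : ∀ φ : S.X₁ ⟶ Y, L φ = hS.extClass.comp (Ext.mk₀ φ) (add_comm 1 0) := by
    intro φ
    rfl
  refine ⟨θ.toLinearMap ∘ₗ L, ?_, ?_⟩
  · obtain ⟨c, hc⟩ := exists_ne (0 : K)
    obtain ⟨x, hx⟩ := Ext.contravariant_sequence_exact₃ hS Y (θ.symm c)
      (h _) (add_comm 1 0)
    refine ⟨Ext.linearEquiv₀ (R := R) x, ?_⟩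
    have h1 : L (Ext.linearEquiv₀ (R := R) x) = θ.symm c := by
      rw [hL, ← hx, Ext.mk₀_linearEquiv₀_apply]
    rw [LinearMap.comp_apply, h1]
    simpa using hc
  · intro φ
    rw [LinearMap.comp_apply]
    have h0 : (θ.toLinearMap (L φ) = 0) ↔ L φ = 0 := by simp
    rw [h0, hL]
    constructor
    · intro h
      obtain ⟨x, hx⟩ := Ext.contravariant_sequence_exact₁ hS Y (Ext.mk₀ φ) (add_comm 1 0) h
      refine ⟨Ext.linearEquiv₀ (R := R) x, ?_⟩
      have h2 : Ext.mk₀ (S.f ≫ Ext.linearEquiv₀ (R := R) x) = Ext.mk₀ φ := by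
        rw [← Ext.mk₀_comp_mk₀, Ext.mk₀_linearEquiv₀_apply, hx]
      exact Ext.homEquiv₀.symm.injective h2
    · rintro ⟨ψ, rfl⟩
      rw [← Ext.mk₀_comp_mk₀]
      exact hS.extClass_comp_assoc _

/-- The two facts about a canonical module that are used: for ideals `F' ≤ F` with `F/F' ≅ k`
the homomorphisms `F' → W` which extend to `F` form the kernel of a nonzero linear map to `k`. -/
theorem exists_delta {n : ℕ} (hn : HasInjectiveDimensionLT (ModuleCat.of R W) n)
    (hm : maximalIdeal R ≠ ⊥)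
    (θ : Ext (ModuleCat.of R (ResidueField R)) (ModuleCat.of R W) 1 ≃ₗ[R] ResidueField R)
    {F' F : Ideal R} (hF : F ≠ ⊥) (hle : F' ≤ F) (g : F →ₗ[R] ResidueField R)
    (hg : Function.Surjective g) (hgF : ∀ b : F, g b = 0 ↔ (b : R) ∈ F') :
    ∃ δ : (F' →ₗ[R] W) →ₗ[R] ResidueField R, (∃ φ, δ φ ≠ 0) ∧
      ∀ φ, δ φ = 0 ↔ ∃ ψ : F →ₗ[R] W, ψ ∘ₗ Submodule.inclusion hle = φ := by
  have hexact : Function.Exact (Submodule.inclusion hle) g := by
    rw [LinearMap.exact_iff]
    ext b
    rw [LinearMap.mem_ker, hgF, Submodule.range_inclusion]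
    rfl
  have hinj : Function.Injective (Submodule.inclusion hle) := Submodule.inclusion_injective hle
  have hS := sc_exact (Submodule.inclusion hle) g hexact hinj hg
  have hExtF : ExtVan R F W 1 := by
    refine ExtVan.left W F.subtype F.mkQ (LinearMap.exact_subtype_mkQ F) F.injective_subtype
        F.mkQ_surjective (ExtVan.free W 0) ?_
    obtain ⟨z, hzF, hz⟩ := Submodule.exists_mem_ne_zero_of_ne_bot hF
    refine ExtVan.of_isFiniteLength W hn hm 0 _ ?_
    exact (isFiniteLength_quot hz).of_surjective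
      (f := Submodule.factor ((Ideal.span_singleton_le_iff_mem F).mpr hzF))
      (Submodule.factor_surjective _)
  obtain ⟨δ, ⟨φ₀, hφ₀⟩, hδ⟩ := delta_abs _ hS (ModuleCat.of R W) hExtF θ
  let e : (F' →ₗ[R] W) ≃ₗ[R] (ModuleCat.of R F' ⟶ ModuleCat.of R W) :=
    (ModuleCat.homLinearEquiv (S := R) (M := ModuleCat.of R F') (N := ModuleCat.of R W)).symm
  refine ⟨δ ∘ₗ e.toLinearMap, ⟨e.symm φ₀, ?_⟩, fun φ => ?_⟩
  · exact hφ₀
  · refine (hδ (ModuleCat.ofHom φ)).trans ?_
    constructor
    · rintro ⟨ψ, hψ⟩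
      exact ⟨ψ.hom, congrArg ModuleCat.Hom.hom hψ⟩
    · rintro ⟨ψ, hψ⟩
      exact ⟨ModuleCat.ofHom ψ, by rw [← hψ]; rfl⟩

end canonical

end Pool.Agent.H2.Canon
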