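import Mathlib

namespace Pool.Agent.H2.FlatMod

open TensorProduct

variable {R : Type*} [CommRing R] (S : Type*) [CommRing S] [Algebra R S]
variable {W P : Type*} [AddCommGroup W] [Module R W] [AddCommGroup P] [Module R P]

theorem ker_baseChange [Module.Flat R S] (θ : W →ₗ[R] P) :
    (LinearMap.ker θ).baseChange S = LinearMap.ker (θ.baseChange S) :=
  (Module.Flat.ker_lTensor_eq S S θ).symm

/-- The quotient of a base change is the base change of the quotient. -/
noncomputable def quotEquiv (A : Submodule R W) :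
    ((S ⊗[R] W) ⧸ A.baseChange S) ≃ₗ[S] S ⊗[R] (W ⧸ A) := by
  have hker : LinearMap.ker (A.mkQ.baseChange S) = A.baseChange S := by
    ext w
    have := (lTensor_exact S (LinearMap.exact_subtype_mkQ A) A.mkQ_surjective) w
    rw [LinearMap.mem_ker]
    exact this
  exact (Submodule.quotEquivOfEq _ _ hker.symm).trans
    (LinearMap.quotKerEquivOfSurjective (A.mkQ.baseChange S)
      (LinearMap.lTensor_surjective S A.mkQ_surjective))

theorem lsmul_baseChange (b : R) (w : S ⊗[R] W) :
    (LinearMap.lsmul R W b).baseChange S w = b • w := by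
  induction w using TensorProduct.induction_on with
  | zero => simp
  | tmul s m => simp [LinearMap.baseChange_tmul, TensorProduct.tmul_smul]
  | add x y hx hy => rw [map_add, hx, hy, smul_add]

/-- `D a F = {w : F w ⊆ a W}`. -/
def D (W : Type*) [AddCommGroup W] [Module R W] (a : R) (F : Ideal R) : Submodule R W where
  carrier := {w | ∀ b ∈ F, ∃ v : W, b • w = a • v}
  zero_mem' := fun b _ => ⟨0, by simp⟩
  add_mem' := by
    intro w w' hw hw' b hb
    obtain ⟨v, hv⟩ := hw b hb
    obtain ⟨v', hv'⟩ := hw' b hb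
    exact ⟨v + v', by rw [smul_add, smul_add, hv, hv']⟩
  smul_mem' := by
    intro c w hw b hb
    obtain ⟨v, hv⟩ := hw b hb
    exact ⟨c • v, by rw [smul_comm, hv, smul_comm]⟩

theorem mem_D {a : R} {F : Ideal R} {w : W} : w ∈ D W a F ↔ ∀ b ∈ F, ∃ v : W, b • w = a • v :=
  Iff.rfl

theorem D_eq_ker {a : R} {F : Ideal R} {r : ℕ} (s : Fin r → R)
    (hs : Ideal.span (Set.range s) = F) :
    D W a F = LinearMap.ker (LinearMap.pi (fun i : Fin r =>
      (LinearMap.range (LinearMap.lsmul R W a)).mkQ ∘ₗ LinearMap.lsmul R W (s i))) := by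
  ext w
  rw [mem_D, LinearMap.mem_ker]
  constructor
  · intro h
    funext i
    obtain ⟨v, hv⟩ := h (s i) (hs ▸ Ideal.subset_span ⟨i, rfl⟩)
    change Submodule.Quotient.mk (s i • w) = 0
    rw [Submodule.Quotient.mk_eq_zero, hv]
    exact ⟨v, rfl⟩
  · intro h b hb
    rw [← hs] at hb
    refine Submodule.span_induction ?_ ?_ ?_ ?_ hb
    · rintro _ ⟨i, rfl⟩
      have h1 := congrFun h i
      change Submodule.Quotient.mk (s i • w) = 0 at h1
      rw [Submodule.Quotient.mk_eq_zero] at h1
      obtain ⟨v, hv⟩ := h1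
      exact ⟨v, hv.symm⟩
    · exact ⟨0, by simp⟩
    · rintro x y _ _ ⟨v, hv⟩ ⟨v', hv'⟩
      exact ⟨v + v', by rw [add_smul, smul_add, hv, hv']⟩
    · rintro c x _ ⟨v, hv⟩
      exact ⟨c • v, by rw [smul_eq_mul, mul_smul, hv, smul_comm]⟩

/-- Flat base change of `D a F`. -/
theorem mem_D_baseChange [Module.Flat R S] {a : R} {F : Ideal R} (hF : F.FG) (w : S ⊗[R] W)
    (hw : ∀ b ∈ F, ∃ v : S ⊗[R] W, b • w = a • v) : w ∈ (D W a F).baseChange S := by
  obtain ⟨r, s, hs⟩ := Submodule.fg_iff_exists_fin_generating_family.mp hF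
  rw [D_eq_ker s hs, ker_baseChange, LinearMap.mem_ker]
  apply (TensorProduct.piRight R S S (fun _ : Fin r =>
    W ⧸ LinearMap.range (LinearMap.lsmul R W a))).injective
  rw [map_zero]
  funext i
  have h1 : ∀ u : S ⊗[R] W, (TensorProduct.piRight R S S (fun _ : Fin r =>
      W ⧸ LinearMap.range (LinearMap.lsmul R W a)))
        ((LinearMap.pi (fun i : Fin r =>
      (LinearMap.range (LinearMap.lsmul R W a)).mkQ ∘ₗ LinearMap.lsmul R W (s i))).baseChange S u) i
      = ((LinearMap.range (LinearMap.lsmul R W a)).mkQ ∘ₗ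
        LinearMap.lsmul R W (s i)).baseChange S u := by
    intro u
    induction u using TensorProduct.induction_on with
    | zero => simp
    | tmul x m =>
      rw [LinearMap.baseChange_tmul, LinearMap.baseChange_tmul, TensorProduct.piRight_apply,
        TensorProduct.piRightHom_tmul]
      rfl
    | add x y hx hy => rw [map_add, map_add, map_add, Pi.add_apply, hx, hy]
  rw [h1, LinearMap.baseChange_comp, LinearMap.comp_apply, lsmul_baseChange]
  obtain ⟨v, hv⟩ := hw (s i) (hs ▸ Submodule.subset_span ⟨i, rfl⟩)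
  rw [hv, ← lsmul_baseChange, ← LinearMap.comp_apply, ← LinearMap.baseChange_comp]
  have h2 : (LinearMap.range (LinearMap.lsmul R W a)).mkQ ∘ₗ LinearMap.lsmul R W a = 0 := by
    ext m
    change Submodule.Quotient.mk (a • m) = 0
    rw [Submodule.Quotient.mk_eq_zero]
    exact ⟨m, rfl⟩
  rw [h2, LinearMap.baseChange_zero]
  rfl

theorem baseChange_smul (I : Ideal R) (A : Submodule R W) :
    (I • A).baseChange S = I.map (algebraMap R S) • A.baseChange S := by
  refine le_antisymm ?_ ?_
  · rw [Submodule.baseChange_eq_span, Submodule.span_le]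
    rintro _ ⟨w, hw, rfl⟩
    refine Submodule.smul_induction_on hw ?_ ?_
    · intro b hb m hm
      have : (TensorProduct.mk R S W 1) (b • m) = algebraMap R S b • (1 ⊗ₜ[R] m : S ⊗[R] W) := by
        rw [TensorProduct.mk_apply, TensorProduct.tmul_smul, algebraMap_smul]
      rw [this]
      exact Submodule.smul_mem_smul (Ideal.mem_map_of_mem _ hb)
        (Submodule.tmul_mem_baseChange_of_mem 1 hm)
    · intro x y hx hy
      rw [map_add]
      exact Submodule.add_mem _ hx hy
  · rw [Submodule.smul_le]
    intro c hc w hw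
    rw [Ideal.map] at hc
    refine Submodule.span_induction ?_ ?_ ?_ ?_ hc
    · rintro _ ⟨b, hb, rfl⟩
      rw [Submodule.baseChange_eq_span] at hw
      refine Submodule.span_induction ?_ ?_ ?_ ?_ hw
      · rintro _ ⟨m, hm, rfl⟩
        rw [TensorProduct.mk_apply, algebraMap_smul, ← TensorProduct.tmul_smul]
        exact Submodule.tmul_mem_baseChange_of_mem 1 (Submodule.smul_mem_smul hb hm)
      · rw [smul_zero]; exact Submodule.zero_mem _
      · intro x y _ _ hx hy
        rw [smul_add]; exact Submodule.add_mem _ hx hy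
      · intro c x _ hx
        rw [smul_comm]; exact Submodule.smul_mem _ _ hx
    · rw [zero_smul]; exact Submodule.zero_mem _
    · intro x y _ _ hx hy
      rw [add_smul]; exact Submodule.add_mem _ hx hy
    · intro c x _ hx
      rw [smul_assoc]; exact Submodule.smul_mem _ _ hx

end Pool.Agent.H2.FlatMod
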