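import Mathlib

namespace Pool.Agent.H2.Col

variable {S M : Type*} [CommRing S] [AddCommGroup M] [Module S M]

/-- The quotient `B/(A ∩ B)`. -/
abbrev RelQuot (A B : Submodule S M) : Type _ := B ⧸ A.submoduleOf B

/-- `length (M/A) = length (B/A) + length (M/B)` for `A ≤ B`. -/
theorem length_quot_eq (A B : Submodule S M) (h : A ≤ B) :
    Module.length S (M ⧸ A) =
      Module.length S (B ⧸ A.submoduleOf B) + Module.length S (M ⧸ B) := by
  let f : (B ⧸ A.submoduleOf B) →ₗ[S] (M ⧸ A) :=
    Submodule.mapQ (A.submoduleOf B) A B.subtype (by intro x hx; exact hx)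
  have hf : ∀ y : B, f (Submodule.Quotient.mk y) = Submodule.Quotient.mk (y : M) := fun y => rfl
  have hfac : ∀ y : M, Submodule.factor h (Submodule.Quotient.mk y) = Submodule.Quotient.mk y :=
    fun y => rfl
  refine Module.length_eq_add_of_exact f (Submodule.factor h) ?_ (Submodule.factor_surjective h) ?_
  · rw [← LinearMap.ker_eq_bot, LinearMap.ker_eq_bot']
    intro x hx
    obtain ⟨y, rfl⟩ := Submodule.mkQ_surjective _ x
    rw [Submodule.mkQ_apply, hf, Submodule.Quotient.mk_eq_zero] at hx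
    rw [Submodule.mkQ_apply, Submodule.Quotient.mk_eq_zero]
    exact hx
  · intro x
    obtain ⟨y, rfl⟩ := Submodule.mkQ_surjective _ x
    rw [Submodule.mkQ_apply, hfac, Submodule.Quotient.mk_eq_zero, Set.mem_range]
    constructor
    · intro hy
      exact ⟨Submodule.Quotient.mk ⟨y, hy⟩, hf _⟩
    · rintro ⟨b, hb⟩
      obtain ⟨b, rfl⟩ := Submodule.mkQ_surjective _ b
      rw [Submodule.mkQ_apply, hf, Submodule.Quotient.eq] at hb
      have h1 : y = (b : M) - ((b : M) - y) := by simp
      rw [h1]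
      exact Submodule.sub_mem _ b.2 (h hb)

theorem length_quot_mono {A B : Submodule S M} (h : A ≤ B) :
    Module.length S (M ⧸ B) ≤ Module.length S (M ⧸ A) := by
  rw [length_quot_eq A B h]
  exact le_add_self

theorem eq_of_length_quot_eq {A B : Submodule S M} (h : A ≤ B)
    (hfin : Module.length S (M ⧸ B) ≠ ⊤)
    (heq : Module.length S (M ⧸ A) ≤ Module.length S (M ⧸ B)) : A = B := by
  rw [length_quot_eq A B h] at heq
  have h0 : Module.length S (B ⧸ A.submoduleOf B) = 0 := by
    by_contra hne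
    have h1 : Module.length S (M ⧸ B) + 1 ≤
        Module.length S (B ⧸ A.submoduleOf B) + Module.length S (M ⧸ B) := by
      rw [add_comm (Module.length S (B ⧸ A.submoduleOf B))]
      exact add_le_add_right (Order.one_le_iff_pos.mpr (pos_iff_ne_zero.mpr hne)) _
    have h2 := h1.trans heq
    exact absurd h2 (not_le.mpr (ENat.lt_add_one_iff hfin |>.mpr le_rfl))
  rw [Module.length_eq_zero_iff, Submodule.Quotient.subsingleton_iff] at h0
  refine le_antisymm h fun x hx => ?_
  have : (⟨x, hx⟩ : B) ∈ A.submoduleOf B := by rw [h0]; trivial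
  exact this

/-- `length (M/xA) = length (M/A) + length (M/xM)` if `x` acts injectively. -/
theorem length_quot_smul (x : S) (hx : ∀ w : M, x • w = 0 → w = 0) (A : Submodule S M) :
    Module.length S (M ⧸ A.map (LinearMap.lsmul S M x)) =
      Module.length S (M ⧸ A) +
        Module.length S (M ⧸ (⊤ : Submodule S M).map (LinearMap.lsmul S M x)) := by
  have hle : A.map (LinearMap.lsmul S M x) ≤ (⊤ : Submodule S M).map (LinearMap.lsmul S M x) :=
    Submodule.map_mono le_top
  let f : (M ⧸ A) →ₗ[S] (M ⧸ A.map (LinearMap.lsmul S M x)) :=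
    Submodule.mapQ A _ (LinearMap.lsmul S M x) (Submodule.le_comap_map _ _)
  have hf : ∀ y : M, f (Submodule.Quotient.mk y) = Submodule.Quotient.mk (x • y) := fun y => rfl
  have hfac : ∀ y : M, Submodule.factor hle (Submodule.Quotient.mk y) = Submodule.Quotient.mk y :=
    fun y => rfl
  refine Module.length_eq_add_of_exact f (Submodule.factor hle) ?_
    (Submodule.factor_surjective hle) ?_
  · rw [← LinearMap.ker_eq_bot, LinearMap.ker_eq_bot']
    intro y hy
    obtain ⟨y, rfl⟩ := Submodule.mkQ_surjective _ y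
    rw [Submodule.mkQ_apply, hf, Submodule.Quotient.mk_eq_zero] at hy
    rw [Submodule.mkQ_apply, Submodule.Quotient.mk_eq_zero]
    obtain ⟨a, ha, hay⟩ := hy
    rw [LinearMap.lsmul_apply] at hay
    have h1 : a - y = 0 := hx _ (by rw [smul_sub, hay, sub_self])
    rw [← sub_eq_zero.mp h1]
    exact ha
  · intro y
    obtain ⟨y, rfl⟩ := Submodule.mkQ_surjective _ y
    rw [Submodule.mkQ_apply, hfac, Submodule.Quotient.mk_eq_zero, Set.mem_range]
    constructor
    · rintro ⟨a, -, rfl⟩
      exact ⟨Submodule.Quotient.mk a, hf _⟩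
    · rintro ⟨b, hb⟩
      obtain ⟨b, rfl⟩ := Submodule.mkQ_surjective _ b
      rw [Submodule.mkQ_apply, hf, Submodule.Quotient.eq] at hb
      have h1 : y = x • b - (x • b - y) := by simp
      rw [h1]
      exact Submodule.sub_mem _ ⟨b, trivial, rfl⟩ (hle hb)

theorem relQuot_mul (x : S) (A B A' B' : Submodule S M) (h1 : ∀ w ∈ B, x • w ∈ B')
    (h2 : ∀ w ∈ A, x • w ∈ A') (h3 : ∀ w ∈ B, x • w ∈ A' → w ∈ A) :
    Module.length S (RelQuot A B) ≤ Module.length S (RelQuot A' B') ∧
      (Module.length S (RelQuot A' B') ≤ Module.length S (RelQuot A B) →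
        Module.length S (RelQuot A B) ≠ ⊤ → B' ≤ B.map (LinearMap.lsmul S M x) ⊔ A') := by
  let φ₀ : B →ₗ[S] B' := (LinearMap.lsmul S M x).restrict h1
  let φ : RelQuot A B →ₗ[S] RelQuot A' B' :=
    Submodule.mapQ (A.submoduleOf B) (A'.submoduleOf B') φ₀ (by
      intro w hw
      exact h2 w hw)
  have hφ : ∀ w : B, φ (Submodule.Quotient.mk w) = Submodule.Quotient.mk (φ₀ w) := fun w => rfl
  have hinj : Function.Injective φ := by
    rw [← LinearMap.ker_eq_bot, LinearMap.ker_eq_bot']
    intro y hy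
    obtain ⟨y, rfl⟩ := Submodule.mkQ_surjective _ y
    rw [Submodule.mkQ_apply, hφ, Submodule.Quotient.mk_eq_zero] at hy
    rw [Submodule.mkQ_apply, Submodule.Quotient.mk_eq_zero]
    exact h3 y y.2 hy
  refine ⟨Module.length_le_of_injective φ hinj, fun hle hfin => ?_⟩
  have hadd := Module.length_eq_add_of_exact φ (LinearMap.range φ).mkQ hinj
    (Submodule.mkQ_surjective _) (LinearMap.exact_map_mkQ_range φ)
  rw [hadd] at hle
  have h0 : Module.length S (RelQuot A' B' ⧸ LinearMap.range φ) = 0 := by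
    by_contra hne
    have h5 : Module.length S (RelQuot A B) + 1 ≤
        Module.length S (RelQuot A B) + Module.length S (RelQuot A' B' ⧸ LinearMap.range φ) :=
      add_le_add_right (Order.one_le_iff_pos.mpr (pos_iff_ne_zero.mpr hne)) _
    have h6 := h5.trans hle
    exact absurd h6 (not_le.mpr (ENat.lt_add_one_iff hfin |>.mpr le_rfl))
  rw [Module.length_eq_zero_iff, Submodule.Quotient.subsingleton_iff] at h0
  intro w hw
  have hwr : (Submodule.Quotient.mk ⟨w, hw⟩ : RelQuot A' B') ∈ LinearMap.range φ := by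
    rw [h0]; trivial
  obtain ⟨y, hy⟩ := hwr
  obtain ⟨y, rfl⟩ := Submodule.mkQ_surjective _ y
  rw [Submodule.mkQ_apply, hφ, Submodule.Quotient.eq] at hy
  have h7 : x • (y : M) - w ∈ A' := hy
  have h8 : w = x • (y : M) - (x • (y : M) - w) := by simp
  rw [h8]
  refine Submodule.sub_mem _ (Submodule.mem_sup_left ⟨y, y.2, rfl⟩) (Submodule.mem_sup_right h7)

end Pool.Agent.H2.Col
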