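import Mathlib
import Pool.Agent.H2.Colength

namespace Pool.Agent.H2.Nagata

open Polynomial IsLocalRing

/-- A McCoy type lemma: `f` has coefficients in `m`; `U n ⊆ V n` are ideals with
`m V_n ⊆ V_{n+1}`, `m U_n ⊆ U_{n+1}` and `(a ∈ V_n, c(f) a ⊆ U_{n+1}) → a ∈ U_n`. Then
multiplication by `f` from `V_n[X]/U_n[X]` to `V_{n+1}[X]/U_{n+1}[X]` is injective. -/
theorem mccoy {R : Type*} [CommRing R] (m : Ideal R) (U V : ℕ → Ideal R) (f : R[X])
    (hf : ∀ i, f.coeff i ∈ m)
    (hU : ∀ n, ∀ a ∈ m, ∀ b ∈ U n, a * b ∈ U (n + 1))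
    (hV : ∀ n, ∀ a ∈ m, ∀ b ∈ V n, a * b ∈ V (n + 1))
    (hUV : ∀ n, ∀ b ∈ V n, (∀ i, f.coeff i * b ∈ U (n + 1)) → b ∈ U n) :
    ∀ (d n : ℕ) (g : R[X]), (∀ k, d ≤ k → g.coeff k = 0) → (∀ k, g.coeff k ∈ V n) →
      (∀ k, (f * g).coeff k ∈ U (n + 1)) → ∀ k, g.coeff k ∈ U n := by
  intro d
  induction d with
  | zero =>
    intro n g hg _ _ k
    rw [hg k (Nat.zero_le k)]
    exact Ideal.zero_mem _
  | succ d ih =>
    intro n g hg hgV hfg
    by_contra hcon
    -- there is a bad index
    have hbad : ∃ i, ∃ k, f.coeff i * g.coeff k ∉ U (n + 1) := by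
      by_contra h
      push Not at h
      exact hcon fun k => hUV n _ (hgV k) fun i => h i k
    -- take the largest bad index
    obtain ⟨j, ⟨k₀, hk₀⟩, hjmax⟩ : ∃ j, (∃ k, f.coeff j * g.coeff k ∉ U (n + 1)) ∧
        ∀ i, j < i → ∀ k, f.coeff i * g.coeff k ∈ U (n + 1) := by
      obtain ⟨i₀, hi₀⟩ := hbad
      classical
      have hbound : ∀ i, (∃ k, f.coeff i * g.coeff k ∉ U (n + 1)) → i ≤ f.natDegree := by
        intro i ⟨k, hk⟩
        by_contra hlt
        apply hk
        rw [Polynomial.coeff_eq_zero_of_natDegree_lt (by omega), zero_mul]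
        exact Ideal.zero_mem _
      refine ⟨Nat.findGreatest (fun i => ∃ k, f.coeff i * g.coeff k ∉ U (n + 1)) f.natDegree,
        Nat.findGreatest_spec (P := fun i => ∃ k, f.coeff i * g.coeff k ∉ U (n + 1))
          (hbound i₀ hi₀) hi₀, ?_⟩
      intro i hi k
      by_contra hk
      exact absurd (Nat.le_findGreatest (hbound i ⟨k, hk⟩)
        (P := fun i => ∃ k, f.coeff i * g.coeff k ∉ U (n + 1)) ⟨k, hk⟩) (by omega)
    set b := g.coeff d with hb
    -- the coefficient of `f * g` at `j + d`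
    have hjb : f.coeff j * b ∈ U (n + 1) := by
      have h1 := hfg (j + d)
      rw [Polynomial.coeff_mul] at h1
      rw [← Finset.add_sum_erase _ _ (Finset.HasAntidiagonal.mem_antidiagonal.mpr
        (show (j, d).1 + (j, d).2 = j + d from rfl))] at h1
      have h2 : ∑ x ∈ (Finset.HasAntidiagonal.antidiagonal (j + d)).erase (j, d),
          f.coeff x.1 * g.coeff x.2 ∈ U (n + 1) := by
        refine Ideal.sum_mem _ fun x hx => ?_
        obtain ⟨hx1, hx2⟩ := Finset.mem_erase.mp hx
        have hx3 : x.1 + x.2 = j + d := Finset.HasAntidiagonal.mem_antidiagonal.mp hx2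
        rcases lt_trichotomy x.1 j with h | h | h
        · rw [hg x.2 (by omega), mul_zero]
          exact Ideal.zero_mem _
        · exfalso
          apply hx1
          ext
          · exact h
          · simp only
            omega
        · exact hjmax x.1 h x.2
      exact (Ideal.add_mem_iff_left _ h2).mp h1
    -- the modified polynomial
    have key := ih (n + 1) (C (f.coeff j) * (g - C b * X ^ d)) ?_ ?_ ?_
    · apply hk₀
      by_cases hkd : k₀ = d
      · rw [hkd]
        exact hjb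
      · have := key k₀
        rw [coeff_C_mul, coeff_sub, coeff_C_mul_X_pow, if_neg hkd, sub_zero] at this
        exact this
    · intro k hk
      rw [coeff_C_mul, coeff_sub, coeff_C_mul_X_pow]
      split_ifs with h
      · rw [h, ← hb, sub_self, mul_zero]
      · rw [hg k (by omega), sub_zero, mul_zero]
    · intro k
      rw [coeff_C_mul, coeff_sub, coeff_C_mul_X_pow]
      split_ifs with h
      · rw [h, ← hb, sub_self, mul_zero]
        exact Ideal.zero_mem _
      · rw [sub_zero]
        exact hV n _ (hf j) _ (hgV k)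
    · intro k
      have h1 : f * (C (f.coeff j) * (g - C b * X ^ d)) =
          C (f.coeff j) * (f * g) - C (f.coeff j * b) * (f * X ^ d) := by
        rw [C_mul]
        ring
      rw [h1, coeff_sub, coeff_C_mul, coeff_C_mul]
      refine Ideal.sub_mem _ (hU _ _ (hf j) _ (hfg k)) ?_
      rw [coeff_mul_X_pow']
      split_ifs with h
      · rw [mul_comm]
        exact hU _ _ (hf _) _ hjb
      · rw [mul_zero]
        exact Ideal.zero_mem _

section ring

variable (R : Type*) [CommRing R] [IsLocalRing R]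

/-- The prime ideal `m R[X]`. -/
noncomputable abbrev PX : Ideal R[X] := (maximalIdeal R).map C

/-- The Nagata ring `R(X)`. -/
abbrev RX : Type _ := Localization.AtPrime (PX R)

instance : Module.Flat R (RX R) := Module.Flat.trans R R[X] (RX R)

theorem maximalIdeal_RX : maximalIdeal (RX R) = (maximalIdeal R).map (algebraMap R (RX R)) := by
  rw [← Localization.AtPrime.map_eq_maximalIdeal, IsScalarTower.algebraMap_eq R R[X] (RX R),
    ← Ideal.map_map]
  rfl

instance : IsLocalHom (algebraMap R (RX R)) := by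
  constructor
  intro a ha
  by_contra h
  have h1 : a ∈ maximalIdeal R := (mem_maximalIdeal a).mpr h
  have h2 : algebraMap R (RX R) a ∈ maximalIdeal (RX R) := by
    rw [maximalIdeal_RX]
    exact Ideal.mem_map_of_mem _ h1
  exact (mem_maximalIdeal _).mp h2 ha

theorem length_RX (M : Type*) [AddCommGroup M] [Module R M] :
    Module.length (RX R) (TensorProduct R (RX R) M) = Module.length R M := by
  rw [IsLocalRing.length_baseChange, ← maximalIdeal_RX]
  have : IsSimpleModule (RX R) (RX R ⧸ maximalIdeal (RX R)) := by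
    rw [isSimpleModule_iff_quot_maximal]
    exact ⟨maximalIdeal (RX R), inferInstance, ⟨LinearEquiv.refl _ _⟩⟩
  have h1 : Module.length (RX R) (RX R ⧸ maximalIdeal (RX R)) = 1 := Module.length_eq_one _ _
  rw [h1, mul_one]

variable {R}

theorem mem_map_RX (I : Ideal R) (z : RX R) :
    z ∈ I.map (algebraMap R (RX R)) ↔ ∃ (g h : R[X]), h ∉ PX R ∧ (∀ k, g.coeff k ∈ I) ∧
      z * algebraMap R[X] (RX R) h = algebraMap R[X] (RX R) g := by
  rw [IsScalarTower.algebraMap_eq R R[X] (RX R), ← Ideal.map_map,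
    IsLocalization.mem_map_algebraMap_iff (PX R).primeCompl]
  constructor
  · rintro ⟨⟨⟨g, hg⟩, ⟨h, hh⟩⟩, hz⟩
    exact ⟨g, h, hh, Ideal.mem_map_C_iff.mp hg, hz⟩
  · rintro ⟨g, h, hh, hg, hz⟩
    exact ⟨⟨⟨g, Ideal.mem_map_C_iff.mpr hg⟩, ⟨h, hh⟩⟩, hz⟩

theorem RX_surj (z : RX R) : ∃ (g h : R[X]), h ∉ PX R ∧
      z * algebraMap R[X] (RX R) h = algebraMap R[X] (RX R) g := by
  obtain ⟨⟨g, ⟨h, hh⟩⟩, hz⟩ := IsLocalization.surj (PX R).primeCompl z
  exact ⟨g, h, hh, hz⟩

end ring

section reduction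

open Pool.Agent.H2.Col

variable {R : Type*} [CommRing R]

theorem mono_aux (m : Ideal R) (n s t : ℕ) (hst : s ≤ t) (a : R)
    (h : ∀ b ∈ m ^ s, b * a ∈ m ^ (n + s + 1)) : ∀ b ∈ m ^ t, b * a ∈ m ^ (n + t + 1) := by
  obtain ⟨u, rfl⟩ := Nat.exists_eq_add_of_le hst
  intro b hb
  rw [pow_add] at hb
  refine Submodule.mul_induction_on hb ?_ ?_
  · intro x hx y hy
    have h1 := Ideal.mul_mem_mul (h x hx) hy
    rw [← pow_add] at h1
    have h2 : x * y * a = x * a * y := by ring
    have h3 : n + (s + u) + 1 = n + s + 1 + u := by ring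
    rw [h2, h3]
    exact h1
  · intro x y hx hy
    rw [add_mul]
    exact Ideal.add_mem _ hx hy

/-- The ideals `U_n = {a ∈ m^n : m^s a ⊆ m^{n+s+1} for some s}`. -/
def UU (m : Ideal R) (n : ℕ) : Ideal R where
  carrier := {a | a ∈ m ^ n ∧ ∃ s, ∀ b ∈ m ^ s, b * a ∈ m ^ (n + s + 1)}
  zero_mem' := ⟨Ideal.zero_mem _, 0, fun b _ => by rw [mul_zero]; exact Ideal.zero_mem _⟩
  add_mem' := by
    rintro a a' ⟨ha, s, hs⟩ ⟨ha', s', hs'⟩
    refine ⟨Ideal.add_mem _ ha ha', max s s', fun b hb => ?_⟩
    rw [mul_add]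
    exact Ideal.add_mem _ (mono_aux m n s _ (le_max_left _ _) a hs b hb)
      (mono_aux m n s' _ (le_max_right _ _) a' hs' b hb)
  smul_mem' := by
    rintro c a ⟨ha, s, hs⟩
    refine ⟨Ideal.mul_mem_left _ _ ha, s, fun b hb => ?_⟩
    have : b * (c • a) = c * (b * a) := by rw [smul_eq_mul]; ring
    rw [this]
    exact Ideal.mul_mem_left _ _ (hs b hb)

theorem UU_unif [IsNoetherianRing R] (m : Ideal R) (n : ℕ) :
    ∃ s, ∀ a ∈ UU m n, ∀ b ∈ m ^ s, b * a ∈ m ^ (n + s + 1) := by
  classical
  obtain ⟨T, hT⟩ := (isNoetherianRing_iff_ideal_fg R).mp ‹_› (UU m n)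
  have h1 : ∀ t : R, ∃ s, t ∈ T → ∀ b ∈ m ^ s, b * t ∈ m ^ (n + s + 1) := by
    intro t
    by_cases ht : t ∈ T
    · have : t ∈ UU m n := hT ▸ Ideal.subset_span ht
      obtain ⟨s, hs⟩ := this.2
      exact ⟨s, fun _ => hs⟩
    · exact ⟨0, fun h => absurd h ht⟩
  choose s hs using h1
  refine ⟨T.sup s, fun a ha => ?_⟩
  rw [← hT] at ha
  refine Submodule.span_induction ?_ ?_ ?_ ?_ ha
  · intro t ht b hb
    exact mono_aux m n (s t) _ (Finset.le_sup ht) t (hs t ht) b hb
  · intro b _
    rw [mul_zero]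
    exact Ideal.zero_mem _
  · intro x y _ _ hx hy b hb
    rw [mul_add]
    exact Ideal.add_mem _ (hx b hb) (hy b hb)
  · intro c x _ hx b hb
    have : b * (c • x) = c * (b * x) := by rw [smul_eq_mul]; ring
    rw [this]
    exact Ideal.mul_mem_left _ _ (hx b hb)

theorem pow_succ_le_UU (m : Ideal R) (n : ℕ) : m ^ (n + 1) ≤ UU m n := by
  intro a ha
  refine ⟨Ideal.pow_le_pow_right (Nat.le_succ n) ha, 0, fun b _ => ?_⟩
  exact Ideal.mul_mem_left _ _ ha

theorem UU_le (m : Ideal R) (n : ℕ) : UU m n ≤ m ^ n := fun _ ha => ha.1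

theorem exists_generic (m : Ideal R) (hm : m.FG) :
    ∃ f : R[X], (∀ i, f.coeff i ∈ m) ∧ m = Ideal.span (Set.range f.coeff) := by
  obtain ⟨r, x, hx⟩ := Submodule.fg_iff_exists_fin_generating_family.mp hm
  let f : R[X] := ∑ i : Fin r, C (x i) * X ^ (i : ℕ)
  have hc : ∀ k, f.coeff k = ∑ i : Fin r, if k = (i : ℕ) then x i else 0 := by
    intro k
    simp only [f, finsetSum_coeff, coeff_C_mul_X_pow]
  have hxm : ∀ i, x i ∈ m := fun i => hx ▸ Submodule.subset_span ⟨i, rfl⟩
  have hmem : ∀ i, f.coeff i ∈ m := by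
    intro k
    rw [hc]
    refine Ideal.sum_mem _ fun i _ => ?_
    split_ifs
    · exact hxm i
    · exact Ideal.zero_mem _
  refine ⟨f, hmem, le_antisymm ?_ ?_⟩
  · rw [← hx]
    refine Submodule.span_le.mpr ?_
    rintro _ ⟨i, rfl⟩
    refine Ideal.subset_span ⟨(i : ℕ), ?_⟩
    rw [hc]
    rw [Finset.sum_eq_single i]
    · simp
    · intro j _ hj
      rw [if_neg]
      intro h
      exact hj (Fin.ext h.symm)
    · intro h
      exact absurd (Finset.mem_univ i) h
  · refine Ideal.span_le.mpr ?_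
    rintro _ ⟨i, rfl⟩
    exact hmem i

end reduction

section main

open Pool.Agent.H2.Col

variable (R : Type*) [CommRing R] [IsDomain R] [IsLocalRing R]

instance : IsDomain (RX R) :=
  IsLocalization.isDomain_localization (PX R).primeCompl_le_nonZeroDivisors

theorem poly_injective : Function.Injective (algebraMap R[X] (RX R)) :=
  IsLocalization.injective _ (PX R).primeCompl_le_nonZeroDivisors

variable {R}

/-- The extension of an ideal of `R` to `R(X)`. -/
noncomputable abbrev ext (I : Ideal R) : Ideal (RX R) := I.map (algebraMap R (RX R))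

variable [IsNoetherianRing R]

theorem claimB (f : R[X]) (hf : ∀ i, f.coeff i ∈ maximalIdeal R)
    (hgen : maximalIdeal R = Ideal.span (Set.range f.coeff)) (n : ℕ) (z : RX R)
    (hz : z ∈ ext (maximalIdeal R ^ n))
    (hFz : algebraMap R[X] (RX R) f * z ∈ ext (UU (maximalIdeal R) (n + 1))) :
    z ∈ ext (UU (maximalIdeal R) n) := by
  rw [ext, mem_map_RX] at *
  obtain ⟨g, h, hh, hg, hzg⟩ := hz
  obtain ⟨g', h', hh', hg', hzg'⟩ := hFz
  have e1 : f * (g * h') = g' * h := by
    apply poly_injective R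
    rw [map_mul, map_mul, map_mul, ← hzg, ← hzg']
    ring
  refine ⟨g * h', h * h', ?_, ?_, ?_⟩
  · intro hmem
    rcases (inferInstance : (PX R).IsPrime).mem_or_mem hmem with h1 | h1
    · exact hh h1
    · exact hh' h1
  · refine mccoy (maximalIdeal R) (UU (maximalIdeal R)) (fun n => maximalIdeal R ^ n) f hf
      ?_ ?_ ?_ ((g * h').natDegree + 1) n (g * h') ?_ ?_ ?_
    · rintro k a ha b ⟨hb, s, hs⟩
      refine ⟨?_, s, fun c hc => ?_⟩
      · rw [pow_succ']
        exact Ideal.mul_mem_mul ha hb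
      · have h1 := Ideal.mul_mem_mul ha (hs c hc)
        rw [← pow_succ'] at h1
        have h2 : c * (a * b) = a * (c * b) := by ring
        have h3 : k + 1 + s + 1 = k + s + 1 + 1 := by ring
        rw [h2, h3]
        exact h1
    · intro k a ha b hb
      rw [pow_succ']
      exact Ideal.mul_mem_mul ha hb
    · intro k b hb hfb
      obtain ⟨s, hs⟩ := UU_unif (maximalIdeal R) (k + 1)
      refine ⟨hb, s + 1, fun c hc => ?_⟩
      have hall : ∀ a ∈ maximalIdeal R, a * b ∈ UU (maximalIdeal R) (k + 1) := by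
        intro a ha
        rw [hgen] at ha
        refine Submodule.span_induction ?_ ?_ ?_ ?_ ha
        · rintro _ ⟨i, rfl⟩
          exact hfb i
        · rw [zero_mul]; exact Ideal.zero_mem _
        · intro x y _ _ hx hy
          rw [add_mul]
          exact Ideal.add_mem _ hx hy
        · intro x y _ hy
          rw [smul_eq_mul, mul_assoc]
          exact Ideal.mul_mem_left _ _ hy
      rw [pow_succ] at hc
      refine Submodule.mul_induction_on hc ?_ ?_
      · intro x hx y hy
        have h1 := hs _ (hall y hy) x hx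
        have h3 : k + (s + 1) + 1 = k + 1 + s + 1 := by ring
        rw [h3, mul_assoc]
        exact h1
      · intro x y hx hy
        rw [add_mul]
        exact Ideal.add_mem _ hx hy
    · intro k hk
      exact coeff_eq_zero_of_natDegree_lt (by omega)
    · exact Ideal.mem_map_C_iff.mp (Ideal.mul_mem_right _ _ (Ideal.mem_map_C_iff.mpr hg))
    · rw [e1]
      exact Ideal.mem_map_C_iff.mp (Ideal.mul_mem_right _ _ (Ideal.mem_map_C_iff.mpr hg'))
  · rw [map_mul, map_mul, ← hzg]
    ring

omit [IsDomain R] [IsNoetherianRing R] in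
theorem length_ext (I : Ideal R) :
    Module.length (RX R) (RX R ⧸ ext I) = Module.length R (R ⧸ I) := by
  rw [← length_RX R (R ⧸ I)]
  exact (Algebra.TensorProduct.quotIdealMapEquivTensorQuot (RX R) I).toLinearEquiv.length_eq

variable [Ring.KrullDimLE 1 R]

omit [IsLocalRing R] in
theorem length_quot_ne_top {I : Ideal R} (hI : I ≠ ⊥) : Module.length R (R ⧸ I) ≠ ⊤ := by
  obtain ⟨z, hz, hz0⟩ := Submodule.exists_mem_ne_zero_of_ne_bot hI
  rw [Module.length_ne_top_iff]
  exact (isFiniteLength_quotient_span_singleton R (mem_nonZeroDivisors_of_ne_zero hz0)).of_surjective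
      (f := Submodule.factor ((Ideal.span_singleton_le_iff_mem I).mpr hz))
      (Submodule.factor_surjective _)

/-- The `n`-th graded piece `m^n/U_n` over `R(X)`. -/
abbrev QQ (R : Type*) [CommRing R] [IsLocalRing R] (n : ℕ) : Type _ :=
  RelQuot (S := RX R) (M := RX R) (ext (UU (maximalIdeal R) n)) (ext (maximalIdeal R ^ n))

theorem length_QQ_le (hm : maximalIdeal R ≠ ⊥) :
    ∃ c : ℕ, ∀ n, Module.length (RX R) (QQ R n) ≤ c := by
  obtain ⟨z, hzm, hz⟩ := Submodule.exists_mem_ne_zero_of_ne_bot hm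
  have hfin : Module.length R (R ⧸ Ideal.span {z}) ≠ ⊤ := by
    apply length_quot_ne_top
    intro h
    exact hz (Ideal.span_singleton_eq_bot.mp h)
  obtain ⟨c, hc⟩ := ENat.ne_top_iff_exists.mp hfin
  refine ⟨c, fun n => ?_⟩
  have hA : Module.length R (R ⧸ maximalIdeal R ^ n) ≠ ⊤ :=
    length_quot_ne_top (pow_ne_zero n hm)
  have hzS : algebraMap R (RX R) z ≠ 0 := by
    intro h
    apply hz
    rw [IsScalarTower.algebraMap_apply R R[X] (RX R)] at h
    have h2 := poly_injective R (h.trans (map_zero _).symm)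
    exact C_injective (h2.trans (map_zero _).symm)
  have e1 := length_quot_smul (algebraMap R (RX R) z)
    (fun w hw => (mul_eq_zero.mp hw).resolve_left hzS) (ext (maximalIdeal R ^ n))
  have e2 : (⊤ : Submodule (RX R) (RX R)).map (LinearMap.lsmul (RX R) (RX R) (algebraMap R (RX R) z))
      = ext (Ideal.span {z}) := by
    rw [ext, Ideal.map_span, Set.image_singleton]
    ext w
    rw [Ideal.mem_span_singleton', Submodule.mem_map]
    constructor
    · rintro ⟨y, -, rfl⟩
      exact ⟨y, mul_comm _ _⟩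
    · rintro ⟨y, rfl⟩
      exact ⟨y, trivial, mul_comm _ _⟩
  rw [e2, length_ext, length_ext] at e1
  have e3 : Submodule.map (LinearMap.lsmul (RX R) (RX R) (algebraMap R (RX R) z))
      (ext (maximalIdeal R ^ n)) ≤
      ext (UU (maximalIdeal R) n) := by
    rintro _ ⟨w, hw, rfl⟩
    have h1 : algebraMap R (RX R) z * w ∈ ext (maximalIdeal R ^ (n + 1)) := by
      rw [ext, pow_succ', Ideal.map_mul]
      exact Ideal.mul_mem_mul (Ideal.mem_map_of_mem _ hzm) hw
    exact Ideal.map_mono (pow_succ_le_UU (maximalIdeal R) n) h1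
  have e4 := length_quot_mono e3
  rw [e1, length_quot_eq (ext (UU (maximalIdeal R) n)) (ext (maximalIdeal R ^ n))
    (Ideal.map_mono (UU_le (maximalIdeal R) n)), length_ext,
    add_comm (Module.length R (R ⧸ maximalIdeal R ^ n))] at e4
  have e5 := (ENat.add_le_add_iff_right hA).mp e4
  rw [← hc] at e5
  exact e5

theorem exists_reduction (hm : maximalIdeal R ≠ ⊥) :
    ∃ (F : RX R) (N : ℕ), F ≠ 0 ∧ F ∈ maximalIdeal (RX R) ∧
      ∀ j, N ≤ j → ext (maximalIdeal R ^ (j + 1)) =
        Submodule.map (LinearMap.lsmul (RX R) (RX R) F) (ext (maximalIdeal R ^ j)) := by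
  obtain ⟨f, hf, hgen⟩ := exists_generic (maximalIdeal R)
    ((isNoetherianRing_iff_ideal_fg R).mp inferInstance _)
  set F : RX R := algebraMap R[X] (RX R) f with hFdef
  have hFm : F ∈ maximalIdeal (RX R) := by
    rw [← Localization.AtPrime.map_eq_maximalIdeal]
    exact Ideal.mem_map_of_mem _ (Ideal.mem_map_C_iff.mpr hf)
  have hF0 : F ≠ 0 := by
    intro h
    have h1 : f = 0 := poly_injective R (h.trans (map_zero _).symm)
    apply hm
    rw [hgen, h1]
    simp
  have hext : ∀ (I : Ideal R) (w : RX R), w ∈ ext I → F * w ∈ ext (maximalIdeal R * I) := by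
    intro I w hw
    rw [ext, Ideal.map_mul, ← maximalIdeal_RX]
    exact Ideal.mul_mem_mul hFm hw
  -- the graded maps
  have hmaps : ∀ n, Module.length (RX R) (QQ R n) ≤ Module.length (RX R) (QQ R (n + 1)) ∧
      (Module.length (RX R) (QQ R (n + 1)) ≤ Module.length (RX R) (QQ R n) →
        Module.length (RX R) (QQ R n) ≠ ⊤ → ext (maximalIdeal R ^ (n + 1)) ≤
          Submodule.map (LinearMap.lsmul (RX R) (RX R) F) (ext (maximalIdeal R ^ n)) ⊔
            ext (UU (maximalIdeal R) (n + 1))) := by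
    intro n
    refine relQuot_mul F (ext (UU (maximalIdeal R) n)) (ext (maximalIdeal R ^ n))
      (ext (UU (maximalIdeal R) (n + 1))) (ext (maximalIdeal R ^ (n + 1))) ?_ ?_ ?_
    · intro w hw
      rw [pow_succ']
      exact hext _ w hw
    · intro w hw
      have h1 := hext _ w hw
      refine Ideal.map_mono ?_ h1
      rw [Ideal.mul_le]
      rintro a ha b ⟨hb, s, hs⟩
      refine ⟨?_, s, fun c hc => ?_⟩
      · rw [pow_succ']
        exact Ideal.mul_mem_mul ha hb
      · have h1 := Ideal.mul_mem_mul ha (hs c hc)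
        rw [← pow_succ'] at h1
        have h2 : c * (a * b) = a * (c * b) := by ring
        have h3 : n + 1 + s + 1 = n + s + 1 + 1 := by ring
        rw [h2, h3]
        exact h1
    · intro w hw hFw
      exact claimB f hf hgen n w hw hFw
  -- a stable index
  obtain ⟨c, hc⟩ := length_QQ_le (R := R) hm
  obtain ⟨n, hn⟩ : ∃ n, Module.length (RX R) (QQ R (n + 1)) ≤ Module.length (RX R) (QQ R n) := by
    by_contra hcon
    push Not at hcon
    have hgrow : ∀ n : ℕ, (n : ℕ∞) ≤ Module.length (RX R) (QQ R n) := by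
      intro n
      induction n with
      | zero => simp
      | succ n ih =>
        have h1 := Order.add_one_le_of_lt (hcon n)
        push_cast
        exact (add_le_add_left ih 1).trans h1
    have h1 := (hgrow (c + 1)).trans (hc (c + 1))
    have h2 : c + 1 ≤ c := by exact_mod_cast h1
    omega
  have hfin : Module.length (RX R) (QQ R n) ≠ ⊤ := by
    intro h
    have := hc n
    rw [h] at this
    exact absurd this (by simp)
  have hsurj := (hmaps n).2 hn hfin
  obtain ⟨s, hs⟩ := UU_unif (maximalIdeal R) (n + 1)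
  have hUs : maximalIdeal R ^ s * UU (maximalIdeal R) (n + 1) ≤
      maximalIdeal R ^ (n + 1 + s + 1) := by
    rw [Ideal.mul_le]
    intro b hb a ha
    exact hs a ha b hb
  -- general step
  have hone : ext (maximalIdeal R ^ (n + s + 1)) ≤
      Submodule.map (LinearMap.lsmul (RX R) (RX R) F) (ext (maximalIdeal R ^ (n + s))) := by
    have h1 : ext (maximalIdeal R ^ (n + s + 1)) ≤
        Submodule.map (LinearMap.lsmul (RX R) (RX R) F) (ext (maximalIdeal R ^ (n + s))) ⊔
          maximalIdeal (RX R) • ext (maximalIdeal R ^ (n + s + 1)) := by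
      have e1 : ext (maximalIdeal R ^ (n + s + 1)) =
          ext (maximalIdeal R ^ s) • ext (maximalIdeal R ^ (n + 1)) := by
        rw [smul_eq_mul, ext, ext, ext, ← Ideal.map_mul, ← pow_add]
        congr 2
        ring
      rw [e1]
      refine (Submodule.smul_mono le_rfl hsurj).trans ?_
      rw [Submodule.smul_sup]
      refine sup_le_sup ?_ ?_
      · rw [Submodule.smul_le]
        rintro a ha _ ⟨w, hw, rfl⟩
        refine ⟨a * w, ?_, ?_⟩
        · have h5 : a * w ∈ ext (maximalIdeal R ^ s) * ext (maximalIdeal R ^ n) :=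
            Ideal.mul_mem_mul ha hw
          rw [ext, ext, ← Ideal.map_mul, ← pow_add, add_comm s n] at h5
          exact h5
        · rw [LinearMap.lsmul_apply, LinearMap.lsmul_apply, smul_eq_mul, smul_eq_mul, smul_eq_mul]
          ring
      · rw [maximalIdeal_RX, ← e1, smul_eq_mul, smul_eq_mul, ext, ext, ext, ← Ideal.map_mul,
          ← Ideal.map_mul, ← pow_succ']
        refine Ideal.map_mono (hUs.trans (Ideal.pow_le_pow_right (by omega)))
    refine Submodule.le_of_le_smul_of_le_jacobson_bot ?_ ?_ h1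
    · exact (isNoetherianRing_iff_ideal_fg (RX R)).mp inferInstance _
    · exact le_of_eq (IsLocalRing.jacobson_eq_maximalIdeal _ bot_ne_top).symm
  refine ⟨F, n + s, hF0, hFm, ?_⟩
  intro j hj
  refine le_antisymm ?_ ?_
  · obtain ⟨t, rfl⟩ := Nat.exists_eq_add_of_le hj
    have e1 : ext (maximalIdeal R ^ (n + s + t + 1)) =
          ext (maximalIdeal R ^ t) * ext (maximalIdeal R ^ (n + s + 1)) := by
      rw [ext, ext, ext, ← Ideal.map_mul, ← pow_add]
      congr 2
      ring
    rw [e1]
    refine (Ideal.mul_mono_right hone).trans ?_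
    rw [Ideal.mul_le]
    rintro a ha _ ⟨w, hw, rfl⟩
    refine ⟨a * w, ?_, ?_⟩
    · have h5 : a * w ∈ ext (maximalIdeal R ^ t) * ext (maximalIdeal R ^ (n + s)) :=
        Ideal.mul_mem_mul ha hw
      rw [ext, ext, ← Ideal.map_mul, ← pow_add, add_comm t (n + s)] at h5
      exact h5
    · rw [LinearMap.lsmul_apply, LinearMap.lsmul_apply, smul_eq_mul, smul_eq_mul]
      ring
  · rintro _ ⟨w, hw, rfl⟩
    rw [LinearMap.lsmul_apply, smul_eq_mul, pow_succ']
    exact hext _ w hw

end main

end Pool.Agent.H2.Nagata
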