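import Mathlib
import Pool.Agent.H2.Nagata

namespace Pool.Agent.H2.MinMult

open IsLocalRing Pool.Agent.H2.Col Pool.Agent.H2.Nagata Filter Topology

variable (R : Type*) [CommRing R] [IsLocalRing R] [IsNoetherianRing R]

theorem length_cotangent : Module.length R (RelQuot (S := R) (M := R) (maximalIdeal R ^ 2)
    (maximalIdeal R)) = Module.finrank (ResidueField R) (CotangentSpace R) := by
  have e1 : Submodule.submoduleOf (maximalIdeal R ^ 2) (maximalIdeal R) =
      (maximalIdeal R • ⊤ : Submodule R (maximalIdeal R)) := by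
    apply Submodule.map_injective_of_injective (f := (maximalIdeal R).subtype)
      (Submodule.injective_subtype _)
    rw [Submodule.map_smul'', Submodule.map_subtype_top, Submodule.submoduleOf,
      Submodule.map_comap_subtype, smul_eq_mul, ← pow_two]
    exact inf_eq_right.mpr (Ideal.pow_le_self two_ne_zero)
  have e2 : Module.length R (RelQuot (S := R) (M := R) (maximalIdeal R ^ 2) (maximalIdeal R)) =
      Module.length R (CotangentSpace R) := by
    exact (Submodule.quotEquivOfEq _ _ e1).length_eq
  rw [e2, ← Module.length_eq_finrank,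
    Module.length_eq_of_surjective (residue_surjective (R := R))]

theorem length_quot_sq : Module.length R (R ⧸ maximalIdeal R ^ 2) =
    Module.finrank (ResidueField R) (CotangentSpace R) + 1 := by
  rw [length_quot_eq (maximalIdeal R ^ 2) (maximalIdeal R) (Ideal.pow_le_self two_ne_zero),
    length_cotangent]
  congr 1
  have : IsSimpleModule R (R ⧸ maximalIdeal R) := by
    rw [isSimpleModule_iff_quot_maximal]
    exact ⟨maximalIdeal R, inferInstance, ⟨LinearEquiv.refl _ _⟩⟩
  exact Module.length_eq_one _ _

variable [IsDomain R] [Ring.KrullDimLE 1 R]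

theorem exists_min_reduction (hm : maximalIdeal R ≠ ⊥)
    (hmin : Tendsto (fun n : ℕ => ((Module.length R (R ⧸ maximalIdeal R ^ n)).toNat : ℝ) / n)
      atTop (𝓝 (Module.finrank (ResidueField R) (CotangentSpace R) : ℝ))) :
    ∃ F : RX R, F ≠ 0 ∧ F ∈ maximalIdeal (RX R) ∧ ext (maximalIdeal R ^ 2) =
      Submodule.map (LinearMap.lsmul (RX R) (RX R) F) (ext (maximalIdeal R)) := by
  obtain ⟨F, N, hF0, hFm, hF⟩ := exists_reduction (R := R) hm
  have hinj : ∀ w : RX R, F • w = 0 → w = 0 := fun w hw => (mul_eq_zero.mp hw).resolve_left hF0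
  set E : ℕ∞ := Module.length (RX R)
    (RX R ⧸ (⊤ : Submodule (RX R) (RX R)).map (LinearMap.lsmul (RX R) (RX R) F)) with hE
  have hfin : ∀ j, Module.length R (R ⧸ maximalIdeal R ^ j) ≠ ⊤ := fun j =>
    length_quot_ne_top (pow_ne_zero j hm)
  have hstep : ∀ j, N ≤ j → Module.length R (R ⧸ maximalIdeal R ^ (j + 1)) =
      Module.length R (R ⧸ maximalIdeal R ^ j) + E := by
    intro j hj
    rw [← length_ext (maximalIdeal R ^ (j + 1)), ← length_ext (maximalIdeal R ^ j), hF j hj]
    exact length_quot_smul F hinj _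
  have hEfin : E ≠ ⊤ := by
    intro h
    have h1 := hstep N le_rfl
    rw [h, add_top] at h1
    exact hfin _ h1
  obtain ⟨e, he⟩ := ENat.ne_top_iff_exists.mp hEfin
  -- the lengths as natural numbers
  set c : ℕ → ℕ := fun j => (Module.length R (R ⧸ maximalIdeal R ^ j)).toNat with hc
  have hcj : ∀ j, (c j : ℕ∞) = Module.length R (R ⧸ maximalIdeal R ^ j) := fun j =>
    ENat.natCast_toNat (hfin j)
  have hcstep : ∀ j, N ≤ j → c (j + 1) = c j + e := by
    intro j hj
    have h1 := hstep j hj
    rw [← hcj, ← hcj, ← he] at h1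
    exact_mod_cast h1
  have hclin : ∀ i, c (N + i) = c N + i * e := by
    intro i
    induction i with
    | zero => simp
    | succ i ih =>
      rw [← add_assoc, hcstep _ (by omega), ih]
      ring
  -- the limit
  have hlim : Tendsto (fun n : ℕ => (c n : ℝ) / n) atTop (𝓝 (e : ℝ)) := by
    have h1 : Tendsto (fun n : ℕ => (((c N : ℝ) - N * e) / n + e)) atTop (𝓝 (0 + e)) := by
      refine Tendsto.add ?_ tendsto_const_nhds
      exact tendsto_const_div_atTop_nhds_zero_nat _
    rw [zero_add] at h1
    refine h1.congr' ?_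
    filter_upwards [eventually_ge_atTop (N + 1)] with n hn
    obtain ⟨i, rfl⟩ := Nat.exists_eq_add_of_le (show N ≤ n by omega)
    rw [hclin i]
    have hpos : ((N + i : ℕ) : ℝ) ≠ 0 := by
      have : 0 < N + i := by omega
      exact_mod_cast this.ne'
    field_simp
    push_cast
    ring
  have hee : (e : ℝ) = Module.finrank (ResidueField R) (CotangentSpace R) :=
    tendsto_nhds_unique hlim hmin
  have hee' : e = Module.finrank (ResidueField R) (CotangentSpace R) := by exact_mod_cast hee
  refine ⟨F, hF0, hFm, ?_⟩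
  symm
  refine eq_of_length_quot_eq ?_ ?_ ?_
  · rintro _ ⟨w, hw, rfl⟩
    rw [LinearMap.lsmul_apply, smul_eq_mul, pow_two, ext, Ideal.map_mul, ← maximalIdeal_RX]
    rw [ext, ← maximalIdeal_RX] at hw
    exact Ideal.mul_mem_mul hFm hw
  · rw [length_ext]
    exact hfin 2
  · rw [length_quot_smul F hinj (ext (maximalIdeal R)), length_ext, length_ext, length_quot_sq,
      ← hE, ← he, hee']
    have : IsSimpleModule R (R ⧸ maximalIdeal R) := by
      rw [isSimpleModule_iff_quot_maximal]
      exact ⟨maximalIdeal R, inferInstance, ⟨LinearEquiv.refl _ _⟩⟩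
    have h1 : Module.length R (R ⧸ maximalIdeal R) = 1 := Module.length_eq_one _ _
    rw [h1, add_comm]

end Pool.Agent.H2.MinMult
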