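import Mathlib
import Pool.Agent.H2.CanonExt
import Pool.Agent.H2.MinMult
import Pool.Agent.H2.FlatMod

namespace Pool.Agent.H2.CanonMain

universe u

set_option linter.unusedSectionVars false

open IsLocalRing TensorProduct CategoryTheory Abelian
open Pool.Agent.H2.Col Pool.Agent.H2.Nagata Pool.Agent.H2.FlatMod

section mu

variable (R : Type*) [CommRing R] [IsLocalRing R]

/-- The minimal number of generators. -/
noncomputable def mu (M : Type*) [AddCommGroup M] [Module R M] : ℕ :=
  Module.finrank (ResidueField R) (ResidueField R ⊗[R] M)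

theorem mu_congr {M M' : Type*} [AddCommGroup M] [Module R M] [AddCommGroup M'] [Module R M']
    (e : M ≃ₗ[R] M') : mu R M = mu R M' :=
  (e.baseChange R (ResidueField R)).finrank_eq

theorem mu_tensor (M M' : Type*) [AddCommGroup M] [Module R M] [AddCommGroup M'] [Module R M'] :
    mu R (M ⊗[R] M') = mu R M * mu R M' := by
  unfold mu
  rw [(AlgebraTensorModule.distribBaseChange R (ResidueField R) M M').finrank_eq,
    Module.finrank_tensorProduct]

theorem length_relQuot_smul {M : Type*} [AddCommGroup M] [Module R M] (A : Submodule R M)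
    [Module.Finite R A] :
    Module.length R (RelQuot (maximalIdeal R • A) A) = mu R A := by
  have e1 : Submodule.submoduleOf (maximalIdeal R • A) A =
      (maximalIdeal R • ⊤ : Submodule R A) := by
    apply Submodule.map_injective_of_injective (f := A.subtype)
      (Submodule.injective_subtype _)
    rw [Submodule.map_smul'', Submodule.map_subtype_top, Submodule.submoduleOf,
      Submodule.map_comap_subtype]
    exact inf_eq_right.mpr Submodule.smul_le_right
  have e2 : Module.length R (RelQuot (maximalIdeal R • A) A) =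
      Module.length R ((R ⧸ maximalIdeal R) ⊗[R] A) := by
    rw [(TensorProduct.quotTensorEquivQuotSMul A (maximalIdeal R)).length_eq]
    exact (Submodule.quotEquivOfEq _ _ e1).length_eq
  rw [e2]
  unfold mu
  rw [← Module.length_eq_finrank, ← Module.length_eq_of_surjective (residue_surjective (R := R))]
  rfl

theorem subsingleton_of_mu_eq_zero {M : Type*} [AddCommGroup M] [Module R M] [Module.Finite R M]
    (h : mu R M = 0) : Subsingleton M := by
  unfold mu at h
  have h1 := Module.finrank_zero_iff.mp h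
  exact (IsLocalRing.subsingleton_tensorProduct (R := R)).mp h1

theorem exists_span_singleton_of_mu_eq_one {M : Type*} [AddCommGroup M] [Module R M]
    [Module.Finite R M] (h : mu R M = 1) : ∃ b : M, Submodule.span R {b} = ⊤ := by
  unfold mu at h
  let b := Module.finBasisOfFinrankEq (ResidueField R) (ResidueField R ⊗[R] M) h
  have hsurj : ∀ y : ResidueField R ⊗[R] M, ∃ x : M, (1 : ResidueField R) ⊗ₜ[R] x = y := by
    intro y
    have := IsLocalRing.map_mkQ_eq_top (R := R) (M := M) (N := ⊤)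
    obtain ⟨x, hx⟩ := TensorProduct.mk_surjective R M (ResidueField R)
      (residue_surjective (R := R)) y
    exact ⟨x, hx⟩
  choose f hf using fun i => hsurj (b i)
  have h2 := IsLocalRing.span_eq_top_of_tmul_eq_basis f b hf
  refine ⟨f 0, ?_⟩
  rw [← h2, Set.range_unique]
  rfl

end mu

section dual

variable {R : Type u} [CommRing R]
variable {W : Type u} [AddCommGroup W] [Module R W]

/-- Evaluation at `a`. -/
def ev (W : Type u) [AddCommGroup W] [Module R W] {F : Ideal R} {a : R} (ha : a ∈ F) :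
    (F →ₗ[R] W) →ₗ[R] W where
  toFun φ := φ ⟨a, ha⟩
  map_add' _ _ := rfl
  map_smul' _ _ := rfl

theorem ev_rel {F : Ideal R} {a : R} (ha : a ∈ F) (φ : F →ₗ[R] W) (b : F) :
    (b : R) • ev W ha φ = a • φ b := by
  change (b : R) • φ ⟨a, ha⟩ = a • φ b
  rw [← map_smul, ← map_smul]
  congr 1
  ext
  simp [mul_comm]

theorem D_anti {a : R} {F' F : Ideal R} (h : F' ≤ F) : D W a F ≤ D W a F' :=
  fun _ hw b hb => hw b (h hb)

variable (hT : ∀ z : R, z ≠ 0 → ∀ w : W, z • w = 0 → w = 0)
include hT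

theorem ev_injective {F : Ideal R} {a : R} (ha : a ∈ F) (ha0 : a ≠ 0) :
    Function.Injective (ev W ha) := by
  rw [← LinearMap.ker_eq_bot, LinearMap.ker_eq_bot']
  intro φ hφ
  ext b
  have h1 := ev_rel ha φ b
  rw [hφ, smul_zero] at h1
  exact hT a ha0 _ h1.symm

theorem range_ev {F : Ideal R} {a : R} (ha : a ∈ F) (ha0 : a ≠ 0) :
    LinearMap.range (ev W ha) = D W a F := by
  have hcancel : ∀ v v' : W, a • v = a • v' → v = v' := by
    intro v v' h
    have := hT a ha0 (v - v') (by rw [smul_sub, h, sub_self])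
    exact sub_eq_zero.mp this
  apply le_antisymm
  · rintro _ ⟨φ, rfl⟩ b hb
    exact ⟨φ ⟨b, hb⟩, ev_rel ha φ ⟨b, hb⟩⟩
  · intro w hw
    have hw' : ∀ b : F, ∃ v : W, (b : R) • w = a • v := fun b => hw b b.2
    choose g hg using hw'
    let φ : F →ₗ[R] W :=
      { toFun := g
        map_add' := by
          intro x y
          apply hcancel
          rw [← hg, smul_add, ← hg, ← hg]
          exact add_smul _ _ _
        map_smul' := by
          intro c x
          apply hcancel
          rw [← hg, RingHom.id_apply, smul_comm, ← hg, smul_smul]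
          rfl }
    refine ⟨φ, ?_⟩
    apply hcancel
    exact (hg ⟨a, ha⟩).symm

variable [IsDomain R]

/-- `Hom(F, W) ≅ D a F`. -/
noncomputable def homEquivD {F : Ideal R} {a : R} (ha : a ∈ F) (ha0 : a ≠ 0) :
    (F →ₗ[R] W) ≃ₗ[R] D W a F :=
  (LinearEquiv.ofInjective (ev W ha) (ev_injective hT ha ha0)).trans
    (LinearEquiv.ofEq _ _ (range_ev hT ha ha0))

theorem homEquivD_apply {F : Ideal R} {a : R} (ha : a ∈ F) (ha0 : a ≠ 0) (φ : F →ₗ[R] W) :
    (homEquivD hT ha ha0 φ : W) = φ ⟨a, ha⟩ := rfl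

/-- A homomorphism on `F'` extends to `F` iff its value at `a` lies in `D a F`. -/
theorem extends_iff {F' F : Ideal R} (hle : F' ≤ F) {a : R} (ha : a ∈ F') (ha0 : a ≠ 0)
    (φ : F' →ₗ[R] W) :
    (∃ ψ : F →ₗ[R] W, ψ ∘ₗ Submodule.inclusion hle = φ) ↔ φ ⟨a, ha⟩ ∈ D W a F := by
  constructor
  · rintro ⟨ψ, rfl⟩
    exact (homEquivD hT (hle ha) ha0 ψ).2
  · intro h
    obtain ⟨ψ, hψ⟩ := (homEquivD hT (hle ha) ha0).surjective ⟨_, h⟩
    refine ⟨ψ, ev_injective hT ha ha0 ?_⟩
    exact congrArg Subtype.val hψ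

variable [IsLocalRing R] [IsNoetherianRing R] [Ring.KrullDimLE 1 R]
variable {n : ℕ} (hn : HasInjectiveDimensionLT (ModuleCat.of R W) n)
    (hm : maximalIdeal R ≠ ⊥)
    (θ : Ext (ModuleCat.of R (ResidueField R)) (ModuleCat.of R W) 1 ≃ₗ[R] ResidueField R)

include hn hm θ

theorem simple_step {F' F : Ideal R} (hle : F' ⋖ F) {a : R} (ha : a ∈ F') (ha0 : a ≠ 0) :
    Module.length R (RelQuot (D W a F) (D W a F')) ≤ 1 ∧ D W a F ≠ D W a F' := by
  have hsimple : IsSimpleModule R (F ⧸ Submodule.comap F.subtype F') :=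
    (covBy_iff_quot_is_simple hle.le).mp hle
  obtain ⟨J, hJ, ⟨e⟩⟩ := isSimpleModule_iff_quot_maximal.mp hsimple
  obtain rfl := eq_maximalIdeal hJ
  let g : F →ₗ[R] ResidueField R := e.toLinearMap ∘ₗ (Submodule.comap F.subtype F').mkQ
  have hg : Function.Surjective g := e.surjective.comp (Submodule.mkQ_surjective _)
  have hgF : ∀ b : F, g b = 0 ↔ (b : R) ∈ F' := by
    intro b
    change e (Submodule.Quotient.mk b) = 0 ↔ _
    rw [LinearEquiv.map_eq_zero_iff, Submodule.Quotient.mk_eq_zero]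
    rfl
  have hF : F ≠ ⊥ := by
    intro h
    have := hle.le ha
    rw [h] at this
    exact ha0 this
  obtain ⟨δ, ⟨φ₀, hφ₀⟩, hδ⟩ := Pool.Agent.H2.Canon.exists_delta W hn hm θ hF hle.le g hg hgF
  let E := homEquivD hT ha ha0
  let δ' : D W a F' →ₗ[R] ResidueField R := δ ∘ₗ E.symm.toLinearMap
  have hker : LinearMap.ker δ' = (D W a F).submoduleOf (D W a F') := by
    ext w
    rw [LinearMap.mem_ker]
    change δ (E.symm w) = 0 ↔ (w : W) ∈ D W a F
    rw [hδ, extends_iff hT hle.le ha ha0, ← homEquivD_apply hT ha ha0]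
    change (E (E.symm w) : W) ∈ D W a F ↔ _
    rw [LinearEquiv.apply_symm_apply]
  constructor
  · have e1 : Module.length R (RelQuot (D W a F) (D W a F')) =
        Module.length R (LinearMap.range δ') :=
      ((Submodule.quotEquivOfEq _ _ hker.symm).trans δ'.quotKerEquivRange).length_eq
    rw [e1]
    refine (Module.length_le_of_injective (LinearMap.range δ').subtype
      (Submodule.injective_subtype _)).trans ?_
    have : IsSimpleModule R (ResidueField R) := by
      rw [isSimpleModule_iff_quot_maximal]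
      exact ⟨maximalIdeal R, inferInstance, ⟨LinearEquiv.refl _ _⟩⟩
    rw [Module.length_eq_one]
  · intro heq
    apply hφ₀
    rw [hδ, extends_iff hT hle.le ha ha0, heq]
    exact (homEquivD hT ha ha0 φ₀).2

theorem colength_D_le : ∀ (l : ℕ) {F' F : Ideal R} (_ : F' ≤ F) {a : R} (_ : a ∈ F')
    (_ : a ≠ 0), Module.length R (RelQuot F' F) ≤ l →
    Module.length R (W ⧸ D W a F) ≤ Module.length R (W ⧸ D W a F') + l := by
  intro l
  induction l with
  | zero =>
    intro F' F hle a ha ha0 hlen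
    have h0 : Module.length R (RelQuot F' F) = 0 := le_antisymm hlen zero_le
    rw [Module.length_eq_zero_iff, Submodule.Quotient.subsingleton_iff] at h0
    have : F' = F := by
      refine le_antisymm hle fun x hx => ?_
      have : (⟨x, hx⟩ : F) ∈ Submodule.submoduleOf F' F := by rw [h0]; trivial
      exact this
    subst this
    exact le_self_add
  | succ l ih =>
    intro F' F hle a ha ha0 hlen
    by_cases heq : F' = F
    · subst heq
      exact le_self_add
    obtain ⟨F₂, hF₂, hcov⟩ := exists_le_covBy_of_lt (lt_of_le_of_ne hle heq)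
    have ha2 : a ∈ F₂ := hF₂ ha
    have hsimple : IsSimpleModule R (F ⧸ Submodule.comap F.subtype F₂) :=
      (covBy_iff_quot_is_simple hcov.le).mp hcov
    have hone : Module.length R (RelQuot F₂ F) = 1 := Module.length_eq_one_iff.mpr hsimple
    have hFbot : F ≠ ⊥ := by
      intro h
      have := hle ha
      rw [h] at this
      exact ha0 this
    have hfin := length_quot_ne_top hFbot
    have h1 := length_quot_eq (S := R) (M := R) F' F hle
    have h2 := length_quot_eq (S := R) (M := R) F' F₂ hF₂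
    have h3 := length_quot_eq (S := R) (M := R) F₂ F hcov.le
    rw [h1, h3, ← add_assoc] at h2
    have h4 := ENat.add_left_injective_of_ne_top hfin h2
    have hlen2 : Module.length R (RelQuot F' F₂) ≤ l := by
      rw [h4] at hlen
      have h5 : Module.length R (RelQuot F₂ F) = 1 := hone
      rw [h5] at hlen
      push_cast at hlen
      exact (ENat.add_le_add_iff_right ENat.one_ne_top).mp hlen
    have h6 := ih hF₂ ha ha0 hlen2
    have h7 := (simple_step hT hn hm θ hcov ha2 ha0).1
    have h8 := length_quot_eq (D W a F) (D W a F₂) (D_anti hcov.le)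
    rw [h8]
    push_cast
    calc Module.length R (RelQuot (D W a F) (D W a F₂)) + Module.length R (W ⧸ D W a F₂)
        ≤ 1 + (Module.length R (W ⧸ D W a F') + l) := add_le_add h7 h6
      _ = _ := by ring

end dual

section finite

variable {R : Type*} [CommRing R] [IsDomain R] [IsNoetherianRing R] [Ring.KrullDimLE 1 R]
variable {W : Type*} [AddCommGroup W] [Module R W] [Module.Finite R W]

theorem length_quot_ne_top_of_smul {A : Submodule R W} {z : R} (hz : z ≠ 0)
    (hA : ∀ w : W, z • w ∈ A) : Module.length R (W ⧸ A) ≠ ⊤ := by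
  obtain ⟨r, f, hf⟩ := Module.Finite.exists_fin' R W
  let g : (Fin r → (R ⧸ Ideal.span {z})) →ₗ[R] (W ⧸ A) :=
    ∑ i, (Submodule.liftQ (Ideal.span {z})
      (LinearMap.toSpanSingleton R (W ⧸ A) (A.mkQ (f (Pi.single i 1)))) (by
        rw [Ideal.span_le, Set.singleton_subset_iff]
        change z • A.mkQ (f (Pi.single i 1)) = 0
        rw [← map_smul, Submodule.mkQ_apply, Submodule.Quotient.mk_eq_zero]
        exact hA _)) ∘ₗ LinearMap.proj i
  have hg : Function.Surjective g := by
    intro y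
    obtain ⟨w, rfl⟩ := Submodule.mkQ_surjective _ y
    obtain ⟨c, rfl⟩ := hf w
    refine ⟨fun i => Ideal.Quotient.mk _ (c i), ?_⟩
    have h1 : c = ∑ i, c i • (Pi.single i 1 : Fin r → R) := by
      ext j
      simp [Finset.sum_apply, Pi.single_apply]
    conv_rhs => rw [h1, map_sum, map_sum]
    simp only [g, LinearMap.sum_apply]
    refine Finset.sum_congr rfl fun i _ => ?_
    change c i • A.mkQ (f (Pi.single i 1)) = _
    rw [map_smul, map_smul]
  have h1 := Module.length_le_of_surjective g hg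
  have h2 : Module.length R (Fin r → (R ⧸ Ideal.span {z})) ≠ ⊤ := by
    rw [Module.length_pi]
    have h3 : Module.length R (R ⧸ Ideal.span {z}) ≠ ⊤ := by
      apply length_quot_ne_top
      intro h
      exact hz (Ideal.span_singleton_eq_bot.mp h)
    obtain ⟨c, hc⟩ := ENat.ne_top_iff_exists.mp h3
    rw [← hc]
    intro h
    have h4 : ENat.card (Fin r) = (r : ℕ∞) := by simp
    rw [h4] at h
    have h5 : ((r * c : ℕ) : ℕ∞) = ⊤ := by exact_mod_cast h
    exact ENat.natCast_ne_top _ h5
  intro h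
  rw [h] at h1
  exact h2 (top_le_iff.mp h1)

end finite

section final

variable {R : Type u} [CommRing R] [IsLocalRing R]
variable (S : Type*) [CommRing S] [Algebra R S] [Module.Flat R S]
variable {W : Type u} [AddCommGroup W] [Module R W]

/-- The base change of a submodule to `S`. -/
noncomputable abbrev bc (A : Submodule R W) : Submodule S (S ⊗[R] W) :=
  A.baseChange S

/-- The extension of an ideal. -/
abbrev ex (I : Ideal R) : Ideal S := I.map (algebraMap R S)

theorem smul_inj (hT : ∀ z : R, z ≠ 0 → ∀ w : W, z • w = 0 → w = 0) {a : R} (ha : a ≠ 0)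
    (w : S ⊗[R] W) (h : a • w = 0) : w = 0 := by
  have hinj : Function.Injective (LinearMap.lsmul R W a) := by
    rw [← LinearMap.ker_eq_bot, LinearMap.ker_eq_bot']
    intro w hw
    exact hT a ha w hw
  have h1 := Module.Flat.lTensor_preserves_injective_linearMap (M := S) _ hinj
  apply h1
  rw [map_zero]
  have h2 := lsmul_baseChange S a w
  rw [h] at h2
  exact h2

theorem bc_le_smul {A : Submodule R W} {a : R} (hA : ∀ w ∈ A, ∃ v : W, w = a • v)
    {w : S ⊗[R] W} (hw : w ∈ bc S A) : ∃ v : S ⊗[R] W, w = a • v := by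
  rw [bc, Submodule.baseChange_eq_span] at hw
  refine Submodule.span_induction ?_ ?_ ?_ ?_ hw
  · rintro _ ⟨m, hm, rfl⟩
    obtain ⟨v, rfl⟩ := hA m hm
    exact ⟨1 ⊗ₜ v, by rw [TensorProduct.mk_apply, TensorProduct.tmul_smul]⟩
  · exact ⟨0, by simp⟩
  · rintro x y _ _ ⟨v, rfl⟩ ⟨v', rfl⟩
    exact ⟨v + v', by rw [smul_add]⟩
  · rintro c x _ ⟨v, rfl⟩
    exact ⟨c • v, by rw [smul_comm]⟩

theorem factor_ex {F : S} (hF : ex S (maximalIdeal R ^ 2) =
      Submodule.map (LinearMap.lsmul S S F) (ex S (maximalIdeal R))) (I : Ideal R)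
    {u c : S} (hu : u ∈ ex S (maximalIdeal R)) (hc : c ∈ ex S (maximalIdeal R * I)) :
    ∃ c' ∈ ex S (maximalIdeal R * I), u * c = F * c' := by
  have h1 : u * c ∈ ex S (maximalIdeal R ^ 2) * ex S I := by
    rw [ex, ex, ← Ideal.map_mul, pow_two, mul_assoc, Ideal.map_mul]
    exact Ideal.mul_mem_mul hu hc
  refine Submodule.mul_induction_on h1 ?_ ?_
  · intro x hx y hy
    rw [hF] at hx
    obtain ⟨x', hx', rfl⟩ := hx
    refine ⟨x' * y, ?_, ?_⟩
    · rw [ex, Ideal.map_mul]
      exact Ideal.mul_mem_mul hx' hy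
    · rw [LinearMap.lsmul_apply, smul_eq_mul]
      ring
  · rintro x y ⟨c₁, h₁, e₁⟩ ⟨c₂, h₂, e₂⟩
    exact ⟨c₁ + c₂, Ideal.add_mem _ h₁ h₂, by rw [mul_add, e₁, e₂]⟩

variable [IsDomain R]

theorem F_inj (hT : ∀ z : R, z ≠ 0 → ∀ w : W, z • w = 0 → w = 0)
    (hm : maximalIdeal R ≠ ⊥) {F : S} (hF : ex S (maximalIdeal R ^ 2) =
      Submodule.map (LinearMap.lsmul S S F) (ex S (maximalIdeal R)))
    (w : S ⊗[R] W) (h : F • w = 0) : w = 0 := by
  obtain ⟨z, hzm, hz⟩ := Submodule.exists_mem_ne_zero_of_ne_bot hm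
  have h1 : algebraMap R S (z ^ 2) ∈ ex S (maximalIdeal R ^ 2) :=
    Ideal.mem_map_of_mem _ (Ideal.pow_mem_pow hzm 2)
  rw [hF] at h1
  obtain ⟨y, -, hy⟩ := h1
  rw [LinearMap.lsmul_apply, smul_eq_mul] at hy
  apply smul_inj S hT (pow_ne_zero 2 hz)
  rw [← algebraMap_smul S (z ^ 2) w, ← hy, mul_comm, mul_smul, h, smul_zero]

variable [IsNoetherianRing R]

/-- `m D ⊆ F D` over `S` for `D = D a (m I)`. -/
theorem step_N (hT : ∀ z : R, z ≠ 0 → ∀ w : W, z • w = 0 → w = 0)
    (hm : maximalIdeal R ≠ ⊥) {F : S} (hF : ex S (maximalIdeal R ^ 2) =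
      Submodule.map (LinearMap.lsmul S S F) (ex S (maximalIdeal R)))
    (I : Ideal R) {a : R} (ha : a ∈ maximalIdeal R * I) (ha0 : a ≠ 0) :
    bc S (maximalIdeal R • D W a (maximalIdeal R * I)) ≤
      Submodule.map (LinearMap.lsmul S (S ⊗[R] W) F) (bc S (D W a (maximalIdeal R * I))) := by
  rw [bc, baseChange_smul, Submodule.smul_le]
  intro u hu v hv
  -- elements of `ex S (m I)` send `v` into `a W`
  have hdiv : ∀ c ∈ ex S (maximalIdeal R * I), ∃ v' : S ⊗[R] W, c • v = a • v' := by
    intro c hc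
    have h1 : c • v ∈ bc S ((maximalIdeal R * I) • D W a (maximalIdeal R * I)) := by
      rw [bc, baseChange_smul]
      exact Submodule.smul_mem_smul hc hv
    refine bc_le_smul S ?_ h1
    intro w hw
    refine Submodule.smul_induction_on hw ?_ ?_
    · intro b hb w hw
      exact hw b hb
    · rintro x y ⟨v₁, rfl⟩ ⟨v₂, rfl⟩
      exact ⟨v₁ + v₂, by rw [smul_add]⟩
  obtain ⟨a', ha', haa'⟩ := factor_ex S hF I hu (Ideal.mem_map_of_mem (algebraMap R S) ha)
  obtain ⟨w, hw⟩ := hdiv a' ha'
  have huv : u • v = F • w := by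
    have h1 : a • (u • v - F • w) = 0 := by
      rw [smul_sub, ← algebraMap_smul S a (u • v), smul_smul, mul_comm, haa', mul_smul, hw,
        smul_comm, sub_self]
    exact sub_eq_zero.mp (smul_inj S hT ha0 _ h1)
  refine ⟨w, ?_, huv.symm⟩
  refine mem_D_baseChange S ((isNoetherianRing_iff_ideal_fg R).mp ‹_› _) w ?_
  intro b hb
  obtain ⟨b', hb', hbb'⟩ := factor_ex S hF I hu (Ideal.mem_map_of_mem (algebraMap R S) hb)
  obtain ⟨v'', hv''⟩ := hdiv b' hb'
  refine ⟨v'', ?_⟩
  rw [← hv'']
  have h1 : F • (b • w - b' • v) = 0 := by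
    rw [smul_sub, smul_comm, ← huv, ← mul_smul, ← hbb', mul_comm, mul_smul, algebraMap_smul,
      sub_self]
  exact sub_eq_zero.mp (F_inj S hT hm hF _ h1)

/-- If `m (I D) = F (I D)` over `S` then `m D ⊆ F D`, for `D = D a I`. -/
theorem step_J (hT : ∀ z : R, z ≠ 0 → ∀ w : W, z • w = 0 → w = 0)
    (hm : maximalIdeal R ≠ ⊥) {F : S} (hF : ex S (maximalIdeal R ^ 2) =
      Submodule.map (LinearMap.lsmul S S F) (ex S (maximalIdeal R)))
    (I : Ideal R) {a : R} (ha : a ∈ I) (ha0 : a ≠ 0)
    (hP : bc S (maximalIdeal R • (I • D W a I)) ≤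
      Submodule.map (LinearMap.lsmul S (S ⊗[R] W) F) (bc S (I • D W a I))) :
    bc S (maximalIdeal R • D W a I) ≤
      Submodule.map (LinearMap.lsmul S (S ⊗[R] W) F) (bc S (D W a I)) := by
  rw [bc, baseChange_smul, Submodule.smul_le]
  intro u hu v hv
  -- elements of `I D` are divisible by `a`
  have hdiv : ∀ p ∈ bc S (I • D W a I), ∃ v' : S ⊗[R] W, p = a • v' := by
    intro p hp
    refine bc_le_smul S ?_ hp
    intro w hw
    refine Submodule.smul_induction_on hw ?_ ?_
    · intro b hb w hw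
      exact hw b hb
    · rintro x y ⟨v₁, rfl⟩ ⟨v₂, rfl⟩
      exact ⟨v₁ + v₂, by rw [smul_add]⟩
  have hfac : ∀ b ∈ I, ∃ p ∈ bc S (I • D W a I), u • (b • v) = F • p := by
    intro b hb
    have h1 : b • v ∈ bc S (I • D W a I) := by
      rw [bc, baseChange_smul, ← algebraMap_smul S b v]
      exact Submodule.smul_mem_smul (Ideal.mem_map_of_mem _ hb) hv
    have h2 : u • (b • v) ∈ bc S (maximalIdeal R • (I • D W a I)) := by
      rw [bc, baseChange_smul]
      exact Submodule.smul_mem_smul hu h1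
    obtain ⟨p, hp, hp'⟩ := hP h2
    exact ⟨p, hp, hp'.symm⟩
  obtain ⟨p, hp, hup⟩ := hfac a ha
  obtain ⟨w, rfl⟩ := hdiv p hp
  have huv : u • v = F • w := by
    have h1 : a • (u • v - F • w) = 0 := by
      rw [smul_sub, smul_comm a u v, hup, smul_comm, sub_self]
    exact sub_eq_zero.mp (smul_inj S hT ha0 _ h1)
  refine ⟨w, ?_, huv.symm⟩
  refine mem_D_baseChange S ((isNoetherianRing_iff_ideal_fg R).mp ‹_› _) w ?_
  intro b hb
  obtain ⟨p', hp', hup'⟩ := hfac b hb
  obtain ⟨v', rfl⟩ := hdiv p' hp'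
  refine ⟨v', ?_⟩
  have h1 : F • (b • w - a • v') = 0 := by
    rw [smul_sub, smul_comm, ← huv, ← hup', smul_comm b u v, sub_self]
  exact sub_eq_zero.mp (F_inj S hT hm hF _ h1)

end final

section final2

variable {R : Type u} [CommRing R] [IsLocalRing R] [IsDomain R] [IsNoetherianRing R]
  [Ring.KrullDimLE 1 R]
variable (S : Type*) [CommRing S] [Algebra R S] [Module.Flat R S]
variable {W : Type u} [AddCommGroup W] [Module R W] [Module.Finite R W]

/-- The contraction `I ⊗ J → J`, `b ⊗ w ↦ b w`. -/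
noncomputable def contr (I : Ideal R) (J : Submodule R W) : (I ⊗[R] J) →ₗ[R] J :=
  TensorProduct.lift (LinearMap.mk₂ R (fun (b : I) (w : J) => (b : R) • w)
    (fun b b' w => add_smul _ _ _) (fun c b w => by rw [← mul_smul]; rfl)
    (fun b w w' => smul_add _ _ _) (fun c b w => smul_comm _ _ _))

theorem contr_tmul (I : Ideal R) (J : Submodule R W) (b : I) (w : J) :
    contr I J (b ⊗ₜ w) = (b : R) • w := rfl

theorem smul_eq_tmul_contr (I : Ideal R) (J : Submodule R W) {a : R} (ha : a ∈ I)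
    (t : I ⊗[R] J) : a • t = (⟨a, ha⟩ : I) ⊗ₜ[R] contr I J t := by
  induction t using TensorProduct.induction_on with
  | zero => simp
  | tmul b w =>
    rw [contr_tmul, TensorProduct.tmul_smul, TensorProduct.smul_tmul', TensorProduct.smul_tmul']
    congr 1
    ext
    simp [mul_comm]
  | add x y hx hy => rw [smul_add, hx, hy, map_add, TensorProduct.tmul_add]

theorem range_contr (I : Ideal R) (J : Submodule R W) :
    LinearMap.range (J.subtype ∘ₗ contr I J) = I • J := by
  apply le_antisymm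
  · rintro _ ⟨t, rfl⟩
    induction t using TensorProduct.induction_on with
    | zero => simp
    | tmul b w =>
      rw [LinearMap.comp_apply, contr_tmul]
      exact Submodule.smul_mem_smul b.2 w.2
    | add x y hx hy => rw [map_add]; exact Submodule.add_mem _ hx hy
  · rw [Submodule.smul_le]
    intro b hb w hw
    exact ⟨(⟨b, hb⟩ : I) ⊗ₜ (⟨w, hw⟩ : J), rfl⟩

theorem mu_smul (I : Ideal R) (J : Submodule R W) {a : R} (ha : a ∈ I) (ha0 : a ≠ 0)
    (htf : ∀ (r : R) (t : I ⊗[R] J), r • t = 0 → r = 0 ∨ t = 0) :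
    mu R (I • J : Submodule R W) = mu R I * mu R J := by
  have hinj : Function.Injective (J.subtype ∘ₗ contr I J) := by
    rw [← LinearMap.ker_eq_bot, LinearMap.ker_eq_bot']
    intro t ht
    have h1 : contr I J t = 0 := J.injective_subtype (by rw [map_zero]; exact ht)
    have h2 := smul_eq_tmul_contr I J ha t
    rw [h1, TensorProduct.tmul_zero] at h2
    exact (htf a t h2).resolve_left ha0
  rw [← mu_tensor]
  exact (mu_congr R ((LinearEquiv.ofInjective _ hinj).trans
    (LinearEquiv.ofEq _ _ (range_contr I J)))).symm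

theorem mu_dichotomy (hT : ∀ z : R, z ≠ 0 → ∀ w : W, z • w = 0 → w = 0)
    {n₀ : ℕ} (hn : HasInjectiveDimensionLT (ModuleCat.of R W) n₀)
    (hm : maximalIdeal R ≠ ⊥)
    (θ : Ext (ModuleCat.of R (ResidueField R)) (ModuleCat.of R W) 1 ≃ₗ[R] ResidueField R)
    (hS : ∀ (M : Type u) [AddCommGroup M] [Module R M],
      Module.length S (S ⊗[R] M) = Module.length R M)
    {F : S} (hFm : F ∈ ex S (maximalIdeal R)) (hF : ex S (maximalIdeal R ^ 2) =
      Submodule.map (LinearMap.lsmul S S F) (ex S (maximalIdeal R)))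
    (I : Ideal R) {a : R} (ha : a ∈ maximalIdeal R * I) (ha0 : a ≠ 0)
    (htf : ∀ (r : R) (t : I ⊗[R] D W a I), r • t = 0 → r = 0 ∨ t = 0)
    (hn0 : mu R I ≠ 0) (hr0 : mu R (D W a I) ≠ 0) :
    mu R I = 1 ∨ mu R (D W a I) = 1 := by
  have haI : a ∈ I := Ideal.mul_le_right ha
  set m := maximalIdeal R with hmdef
  set J := D W a I with hJ
  set N := D W a (m * I) with hN
  set P : Submodule R W := I • J with hP
  -- colengths
  have hlen : ∀ A : Submodule R W,
      Module.length S ((S ⊗[R] W) ⧸ bc S A) = Module.length R (W ⧸ A) := by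
    intro A
    rw [(quotEquiv S A).length_eq, hS]
  have hFinj : ∀ w : S ⊗[R] W, F • w = 0 → w = 0 := fun w hw => F_inj S hT hm hF w hw
  set E : ℕ∞ := Module.length S ((S ⊗[R] W) ⧸ (⊤ : Submodule S (S ⊗[R] W)).map
    (LinearMap.lsmul S (S ⊗[R] W) F)) with hE
  have hmulF : ∀ A : Submodule R W, Module.length S ((S ⊗[R] W) ⧸
      Submodule.map (LinearMap.lsmul S (S ⊗[R] W) F) (bc S A)) = Module.length R (W ⧸ A) + E := by
    intro A
    rw [length_quot_smul F hFinj, hlen]
  have hmA : ∀ A : Submodule R W, Module.length R (W ⧸ m • A) =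
      mu R A + Module.length R (W ⧸ A) := by
    intro A
    rw [length_quot_eq (m • A) A Submodule.smul_le_right, length_relQuot_smul]
  have haJ : ∀ (F' : Ideal R) (w : W), a • w ∈ D W a F' :=
    fun F' w b _ => ⟨b • w, by rw [smul_comm]⟩
  have hfinJ : Module.length R (W ⧸ J) ≠ ⊤ :=
    length_quot_ne_top_of_smul ha0 (haJ I)
  have hfinN : Module.length R (W ⧸ N) ≠ ⊤ :=
    length_quot_ne_top_of_smul ha0 (haJ _)
  have hfinP : Module.length R (W ⧸ P) ≠ ⊤ := by
    refine length_quot_ne_top_of_smul (mul_ne_zero ha0 ha0) fun w => ?_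
    rw [mul_smul]
    exact Submodule.smul_mem_smul haI (haJ I w)
  have hmuP : mu R P = mu R I * mu R J := mu_smul I J haI ha0 htf
  -- (1)
  have hle1 : Submodule.map (LinearMap.lsmul S (S ⊗[R] W) F) (bc S P) ≤ bc S (m • P) := by
    rintro _ ⟨w, hw, rfl⟩
    rw [bc, baseChange_smul]
    exact Submodule.smul_mem_smul hFm hw
  have h1 : (mu R P : ℕ∞) ≤ E := by
    have h := length_quot_mono hle1
    rw [hlen, hmA, hmulF, add_comm] at h
    exact (ENat.add_le_add_iff_left hfinP).mp h
  -- (2)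
  have h2 : E ≤ mu R P → E ≤ mu R J := by
    intro hEP
    have heq : Submodule.map (LinearMap.lsmul S (S ⊗[R] W) F) (bc S P) = bc S (m • P) := by
      refine eq_of_length_quot_eq hle1 ?_ ?_
      · rw [hlen, hmA]
        exact WithTop.add_ne_top.mpr ⟨ENat.natCast_ne_top _, hfinP⟩
      · rw [hmulF, hlen, hmA, add_comm]
        exact add_le_add_left hEP _
    have hJ2 := step_J S hT hm hF I haI ha0 heq.ge
    have h := length_quot_mono hJ2
    rw [hmulF, hlen, hmA, add_comm (mu R J : ℕ∞)] at h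
    exact (ENat.add_le_add_iff_left hfinJ).mp h
  -- (3)
  have h3 : E ≤ mu R J + mu R I := by
    have hN2 := step_N S hT hm hF I ha ha0
    have hA := length_quot_mono hN2
    rw [hmulF, hlen] at hA
    have hJN : J ≤ N := D_anti Ideal.mul_le_right
    have hB : Module.length R (W ⧸ m • N) ≤ Module.length R (W ⧸ m • J) :=
      length_quot_mono (Submodule.smul_mono le_rfl hJN)
    rw [hmA J] at hB
    have hC := colength_D_le hT hn hm θ (mu R I) (F' := m * I) (F := I) Ideal.mul_le_right ha ha0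
      (by
        have := length_relQuot_smul R (M := R) I
        rw [smul_eq_mul] at this
        exact this.le)
    have hD : Module.length R (W ⧸ N) + E ≤ Module.length R (W ⧸ N) + (mu R J + mu R I) := by
      calc Module.length R (W ⧸ N) + E ≤ mu R J + Module.length R (W ⧸ J) := hA.trans hB
        _ ≤ mu R J + (Module.length R (W ⧸ N) + mu R I) := by
            exact add_le_add_right hC _
        _ = _ := by ring
    exact (ENat.add_le_add_iff_left hfinN).mp hD
  -- arithmetic
  have hEfin : E ≠ ⊤ := by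
    intro h
    rw [h] at h3
    have h5 : (mu R J + mu R I : ℕ∞) = ((mu R J + mu R I : ℕ) : ℕ∞) := by push_cast; rfl
    rw [h5] at h3
    exact ENat.natCast_ne_top _ (top_le_iff.mp h3)
  obtain ⟨e, he⟩ := ENat.ne_top_iff_exists.mp hEfin
  rw [← he] at h1 h2 h3
  have h1' : mu R P ≤ e := by exact_mod_cast h1
  have h2' : e ≤ mu R P → e ≤ mu R J := by
    intro h
    exact_mod_cast h2 (by exact_mod_cast h)
  have h3' : e ≤ mu R J + mu R I := by exact_mod_cast h3
  rw [hmuP] at h1' h2'
  by_contra hcon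
  push Not at hcon
  obtain ⟨hc1, hc2⟩ := hcon
  have hn2 : 2 ≤ mu R I := by omega
  have hr2 : 2 ≤ mu R J := by omega
  have h6 : mu R J + mu R I ≤ mu R I * mu R J := by nlinarith
  have h7 := h2' (h3'.trans h6)
  have h8 : mu R I * mu R J ≤ mu R J := h1'.trans h7
  nlinarith

theorem equiv_of_mu_eq_one (hT : ∀ z : R, z ≠ 0 → ∀ w : W, z • w = 0 → w = 0)
    {n₀ : ℕ} (hn : HasInjectiveDimensionLT (ModuleCat.of R W) n₀)
    (hm : maximalIdeal R ≠ ⊥)
    (θ : Ext (ModuleCat.of R (ResidueField R)) (ModuleCat.of R W) 1 ≃ₗ[R] ResidueField R)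
    (I : Ideal R) {a : R} (haI : a ∈ I) (ha0 : a ≠ 0) (hne : ∃ w : W, w ≠ 0)
    (hmu : mu R (D W a I) = 1) : Nonempty (I ≃ₗ[R] W) := by
  obtain ⟨⟨w₀, hw₀⟩, hspan⟩ := exists_span_singleton_of_mu_eq_one R hmu
  have hgen : ∀ w ∈ D W a I, ∃ c : R, w = c • w₀ := by
    intro w hw
    have : (⟨w, hw⟩ : D W a I) ∈ Submodule.span R {(⟨w₀, hw₀⟩ : D W a I)} := by
      rw [hspan]; trivial
    obtain ⟨c, hc⟩ := Submodule.mem_span_singleton.mp this
    exact ⟨c, (congrArg Subtype.val hc).symm⟩
  have haD : ∀ (F' : Ideal R) (w : W), a • w ∈ D W a F' :=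
    fun F' w b _ => ⟨b • w, by rw [smul_comm]⟩
  have hw₀0 : w₀ ≠ 0 := by
    rintro rfl
    obtain ⟨w, hw⟩ := hne
    obtain ⟨c, hc⟩ := hgen _ (haD I w)
    rw [smul_zero] at hc
    exact hw (hT a ha0 w hc)
  have hcancel : ∀ v v' : W, a • v = a • v' → v = v' := by
    intro v v' h
    have := hT a ha0 (v - v') (by rw [smul_sub, h, sub_self])
    exact sub_eq_zero.mp this
  -- the ideal `L`
  let L : Ideal R :=
    { carrier := {c | ∃ v : W, c • w₀ = a • v}
      zero_mem' := ⟨0, by simp⟩
      add_mem' := by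
        rintro x y ⟨v, hv⟩ ⟨v', hv'⟩
        exact ⟨v + v', by rw [add_smul, smul_add, hv, hv']⟩
      smul_mem' := by
        rintro c x ⟨v, hv⟩
        exact ⟨c • v, by rw [smul_eq_mul, mul_smul, hv, smul_comm]⟩ }
  have hIL : I ≤ L := fun b hb => hw₀ b hb
  have hLw : w₀ ∈ D W a L := fun b hb => hb
  -- `I = L`
  have heq : I = L := by
    by_contra hne'
    obtain ⟨F', hF', hcov⟩ := exists_le_covBy_of_lt (lt_of_le_of_ne hIL hne')
    refine (simple_step hT hn hm θ hcov (hF' haI) ha0).2 ?_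
    refine le_antisymm (D_anti hcov.le) ?_
    intro w hw
    obtain ⟨c, rfl⟩ := hgen w (D_anti hF' hw)
    exact Submodule.smul_mem _ c hLw
  -- `L ≅ W`
  have hv : ∀ c : L, ∃ v : W, (c : R) • w₀ = a • v := fun c => c.2
  choose g hg using hv
  let φ : L →ₗ[R] W :=
    { toFun := g
      map_add' := by
        intro x y
        apply hcancel
        rw [← hg, smul_add, ← hg, ← hg]
        exact add_smul _ _ _
      map_smul' := by
        intro c x
        apply hcancel
        rw [← hg, RingHom.id_apply, smul_comm, ← hg, smul_smul]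
        rfl }
  have hφ : Function.Bijective φ := by
    constructor
    · rw [← LinearMap.ker_eq_bot, LinearMap.ker_eq_bot']
      intro c hc
      have h1 := hg c
      change g c = 0 at hc
      rw [hc, smul_zero] at h1
      by_contra hc0
      exact hw₀0 (hT c (fun h => hc0 (Subtype.ext h)) w₀ h1)
    · intro w
      obtain ⟨c, hc⟩ := hgen _ (haD I w)
      have hcL : c ∈ L := ⟨w, hc.symm⟩
      refine ⟨⟨c, hcL⟩, ?_⟩
      apply hcancel
      rw [hc]
      exact (hg ⟨c, hcL⟩).symm
  exact ⟨(LinearEquiv.ofEq _ _ heq).trans (LinearEquiv.ofBijective φ hφ)⟩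

end final2

end Pool.Agent.H2.CanonMain
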